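import Pool.Agent.Helper14.Pcf.Ops

/-! # Counting operations, conflicts and spoilers -/

set_option autoImplicit false
set_option linter.unusedSectionVars false

namespace Pool.Agent.Helper14.Pcf

open Finset

variable {V : Type*} [Fintype V] [DecidableEq V] {G : SimpleGraph V} [DecidableRel G.Adj] {k : ℕ}

namespace Data

variable (D : Data G k)

open Classical in
/-- The operations touching `s`. -/
noncomputable def touching (s : V) : Finset (V × Fin k) :=
  Finset.univ.filter fun p => s ∈ D.T p

theorem card_touching (s : V) : (D.touching s).card ≤ 2 * k := by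
  classical
  have hsub : D.touching s ⊆ (Finset.univ.image fun y : Fin k => (s, y)) ∪
      ((G.neighborFinset s).image fun u => (u, D.c s)) := by
    intro p hp
    have h1 := (Finset.mem_filter.mp hp).2
    rw [mem_T] at h1
    rw [Finset.mem_union]
    rcases h1 with h1 | ⟨h1, h2⟩
    · left
      exact Finset.mem_image.mpr ⟨p.2, Finset.mem_univ _, by rw [h1]⟩
    · right
      exact Finset.mem_image.mpr ⟨p.1, by simpa using h1.symm, by rw [h2]⟩
  have h1 : (Finset.univ.image fun y : Fin k => (s, y)).card ≤ k :=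
    Finset.card_image_le.trans (by simp)
  have h2 : ((G.neighborFinset s).image fun u => (u, D.c s)).card ≤ k := by
    refine Finset.card_image_le.trans ?_
    rw [SimpleGraph.card_neighborFinset_eq_degree]
    have := D.deg s
    omega
  calc (D.touching s).card ≤ _ := Finset.card_le_card hsub
    _ ≤ _ := Finset.card_union_le _ _
    _ ≤ 2 * k := by omega

open Classical in
/-- The operations giving `s` the colour `z`. -/
noncomputable def giving (s : V) (z : Fin k) : Finset (V × Fin k) :=
  Finset.univ.filter fun p => s ∈ D.T p ∧ D.nv p s = z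

theorem card_giving (s : V) (z : Fin k) : (D.giving s z).card ≤ 4 := by
  classical
  set A := (G.neighborFinset s).filter fun u => D.c u = z ∧ D.n s (D.c u) = 1 with hA
  set B := (G.neighborFinset s).filter fun u => 2 ≤ cnt G D.c s (D.c u) ∧ D.f s u = z with hB
  have hsub : D.giving s z ⊆ {(s, z)} ∪ ((A.image fun u => (u, D.c s)) ∪
      (B.image fun u => (u, D.c s))) := by
    intro p hp
    have h1 := (Finset.mem_filter.mp hp).2
    rw [mem_T] at h1
    rw [Finset.mem_union, Finset.mem_union]
    obtain ⟨h1, h3⟩ := h1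
    rcases h1 with h1 | ⟨h1, h2⟩
    · left
      rw [Finset.mem_singleton, ← h3, h1, nv_self]
    · right
      rcases D.nv_blocker h1 with ⟨h4, h5⟩ | ⟨h4, h5⟩
      · left
        refine Finset.mem_image.mpr ⟨p.1, ?_, by rw [h2]⟩
        exact Finset.mem_filter.mpr ⟨by simpa using h1.symm, by rw [← h4, h3], h5⟩
      · right
        refine Finset.mem_image.mpr ⟨p.1, ?_, by rw [h2]⟩
        exact Finset.mem_filter.mpr ⟨by simpa using h1.symm, h5, by rw [← h4, h3]⟩
  have hAc : A.card ≤ 1 := by
    rw [Finset.card_le_one]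
    intro u hu v hv
    have h1 := Finset.mem_filter.mp hu
    have h2 := Finset.mem_filter.mp hv
    have h3 : cnt G D.c s z ≤ 1 := by
      have := h1.2.2
      rw [h1.2.1] at this
      exact this.le
    exact eq_of_cnt_le_one h3 (by simpa using h1.1) (by simpa using h2.1) h1.2.1 h2.2.1
  have hBc : B.card ≤ 2 := D.two s z
  have h1 : ({(s, z)} : Finset (V × Fin k)).card = 1 := by simp
  have h2 : (A.image fun u => (u, D.c s)).card ≤ 1 := Finset.card_image_le.trans hAc
  have h3 : (B.image fun u => (u, D.c s)).card ≤ 2 := Finset.card_image_le.trans hBc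
  have h4 := Finset.card_union_le (A.image fun u => (u, D.c s)) (B.image fun u => (u, D.c s))
  have h5 := Finset.card_union_le {(s, z)} ((A.image fun u => (u, D.c s)) ∪
      (B.image fun u => (u, D.c s)))
  have h6 := Finset.card_le_card hsub
  omega

/-- The operation `p` spoils the colour `κ` at `w`. -/
def Spoil (w : V) (κ : Fin k) (p : V × Fin k) : Prop :=
  D.Valid p ∧ ∃ s ∈ D.T p, G.Adj w s ∧ (D.c s = κ ∨ D.nv p s = κ)

open Classical in
theorem card_spoil (w : V) (κ : Fin k) (h : D.n w κ ≤ 2) :
    (Finset.univ.filter fun p => D.Spoil w κ p).card ≤ 8 * k := by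
  have hsub : (Finset.univ.filter fun p => D.Spoil w κ p) ⊆
      (((G.neighborFinset w).filter fun u => D.c u = κ).biUnion fun s => D.touching s) ∪
      ((G.neighborFinset w).biUnion fun s => D.giving s κ) := by
    intro p hp
    obtain ⟨_, s, hs, hws, hs2⟩ := (Finset.mem_filter.mp hp).2
    rw [Finset.mem_union]
    rcases hs2 with hs2 | hs2
    · left
      refine Finset.mem_biUnion.mpr ⟨s, ?_, ?_⟩
      · exact Finset.mem_filter.mpr ⟨by simpa using hws, hs2⟩
      · exact Finset.mem_filter.mpr ⟨Finset.mem_univ _, hs⟩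
    · right
      refine Finset.mem_biUnion.mpr ⟨s, by simpa using hws, ?_⟩
      exact Finset.mem_filter.mpr ⟨Finset.mem_univ _, hs, hs2⟩
  have h1 : (((G.neighborFinset w).filter fun u => D.c u = κ).biUnion
      fun s => D.touching s).card ≤ 2 * (2 * k) := by
    refine (Finset.card_biUnion_le_card_mul _ _ (2 * k) (fun s _ => D.card_touching s)).trans ?_
    exact Nat.mul_le_mul_right _ h
  have h2 : ((G.neighborFinset w).biUnion fun s => D.giving s κ).card ≤ k * 4 := by
    refine (Finset.card_biUnion_le_card_mul _ _ 4 (fun s _ => D.card_giving s κ)).trans ?_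
    apply Nat.mul_le_mul_right
    rw [SimpleGraph.card_neighborFinset_eq_degree]
    have := D.deg w
    omega
  have h3 := Finset.card_le_card hsub
  have h4 := Finset.card_union_le (((G.neighborFinset w).filter fun u => D.c u = κ).biUnion
      fun s => D.touching s) ((G.neighborFinset w).biUnion fun s => D.giving s κ)
  omega

open Classical in
theorem card_conf (p : V × Fin k) (hp : D.Valid p) :
    (Finset.univ.filter fun q => D.Conf p q).card ≤ 12 * k := by
  have hsub : (Finset.univ.filter fun q => D.Conf p q) ⊆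
      (D.T p).biUnion fun s => D.touching s ∪
        ((G.neighborFinset s).biUnion fun t => D.giving t (D.nv p s)) := by
    intro q hq
    obtain ⟨s, hs, t, ht, h⟩ := (Finset.mem_filter.mp hq).2
    refine Finset.mem_biUnion.mpr ⟨s, hs, ?_⟩
    rw [Finset.mem_union]
    rcases h with rfl | ⟨h1, h2⟩
    · left
      exact Finset.mem_filter.mpr ⟨Finset.mem_univ _, ht⟩
    · right
      refine Finset.mem_biUnion.mpr ⟨t, by simpa using h1, ?_⟩
      exact Finset.mem_filter.mpr ⟨Finset.mem_univ _, ht, h2.symm⟩
  have h1 : ∀ s ∈ D.T p, (D.touching s ∪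
      ((G.neighborFinset s).biUnion fun t => D.giving t (D.nv p s))).card ≤ 6 * k := by
    intro s _
    have h2 : ((G.neighborFinset s).biUnion fun t => D.giving t (D.nv p s)).card ≤ k * 4 := by
      refine (Finset.card_biUnion_le_card_mul _ _ 4 (fun t _ => D.card_giving t _)).trans ?_
      apply Nat.mul_le_mul_right
      rw [SimpleGraph.card_neighborFinset_eq_degree]
      have := D.deg s
      omega
    have h3 := D.card_touching s
    have h4 := Finset.card_union_le (D.touching s)
      ((G.neighborFinset s).biUnion fun t => D.giving t (D.nv p s))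
    omega
  refine (Finset.card_le_card hsub).trans ?_
  refine (Finset.card_biUnion_le_card_mul _ _ _ h1).trans ?_
  have := D.card_T hp
  calc (D.T p).card * (6 * k) ≤ 2 * (6 * k) := Nat.mul_le_mul_right _ this
    _ = 12 * k := by ring

open Classical in
/-- The colours involved in the operation `p`. -/
noncomputable def cols (p : V × Fin k) : Finset (Fin k) :=
  (D.T p).image D.c ∪ (D.T p).image (D.nv p)

theorem card_cols {p : V × Fin k} (hp : D.Valid p) : (D.cols p).card ≤ 4 := by
  classical
  have h1 := D.card_T hp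
  have h2 : ((D.T p).image D.c).card ≤ 2 := Finset.card_image_le.trans h1
  have h3 : ((D.T p).image (D.nv p)).card ≤ 2 := Finset.card_image_le.trans h1
  have h4 := Finset.card_union_le ((D.T p).image D.c) ((D.T p).image (D.nv p))
  have h5 : (D.cols p).card = ((D.T p).image D.c ∪ (D.T p).image (D.nv p)).card := by
    unfold cols
    congr
  omega

theorem Spoil.mem_cols {w : V} {κ : Fin k} {p : V × Fin k} (h : D.Spoil w κ p) :
    κ ∈ D.cols p := by
  classical
  obtain ⟨_, s, hs, _, h⟩ := h
  unfold cols
  rw [Finset.mem_union]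
  rcases h with h | h
  · left
    exact Finset.mem_image.mpr ⟨s, hs, h⟩
  · right
    exact Finset.mem_image.mpr ⟨s, hs, h⟩

/-- The spoilers of a colour at `w` are near `w`. -/
theorem Spoil.near {w : V} {κ : Fin k} {p : V × Fin k} (h : D.Spoil w κ p) :
    G.Adj p.1 w ∨ ∃ s, G.Adj p.1 s ∧ G.Adj s w := by
  obtain ⟨_, s, hs, hws, _⟩ := h
  rw [mem_T] at hs
  rcases hs with rfl | ⟨hs, _⟩
  · exact Or.inl hws.symm
  · exact Or.inr ⟨s, hs, hws.symm⟩

/-! ### Goodness -/

/-- `(u,y)` gives `w` a new unique colour. -/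
def Good (w : V) (p : V × Fin k) : Prop :=
  G.Adj w p.1 ∧ D.Valid p ∧
    ((∀ v, G.Adj w v → D.c v ≠ p.2) ∨ (D.n w (D.c p.1) = 2 ∧ D.n p.1 p.2 = 0))

open Classical in
/-- The new unique colour. -/
noncomputable def kap (w : V) (p : V × Fin k) : Fin k :=
  if ∀ v, G.Adj w v → D.c v ≠ p.2 then p.2 else D.c p.1

theorem n_kap_le {w : V} {p : V × Fin k} (h : D.Good w p) : D.n w (D.kap w p) ≤ 2 := by
  classical
  unfold kap
  split_ifs with h1
  · have : D.n w p.2 = 0 := by
      unfold n cnt
      rw [Finset.card_eq_zero, Finset.filter_eq_empty_iff]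
      intro v hv
      exact h1 v (by simpa using hv)
    omega
  · rcases h.2.2 with h2 | h2
    · exact absurd h2 h1
    · exact h2.1.le

/-- A good operation spoils its own colour. -/
theorem Good.spoil {w : V} {p : V × Fin k} (h : D.Good w p) : D.Spoil w (D.kap w p) p := by
  classical
  refine ⟨h.2.1, p.1, by rw [mem_T]; exact Or.inl rfl, h.1, ?_⟩
  unfold kap
  split_ifs with h1
  · right
    exact D.nv_self p
  · left
    rfl

section exec

variable {Act : V → Prop} {yy : V → Fin k}

/-- An unspoiled good active operation gives a unique colour at `w`. -/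
theorem unique_of_good (hnc : ∀ u v, Act u → Act v → u ≠ v → ¬ D.Conf (u, yy u) (v, yy v))
    (hval : ∀ u, Act u → D.Valid (u, yy u))
    {w u : V} (hu : Act u) (hg : D.Good w (u, yy u))
    (hsp : ∀ v, Act v → v ≠ u → ¬ D.Spoil w (D.kap w (u, yy u)) (v, yy v)) :
    cnt G (D.fin Act yy) w (D.kap w (u, yy u)) = 1 := by
  classical
  set κ := D.kap w (u, yy u) with hκ
  have hwu : G.Adj w u := hg.1
  have huT : u ∈ D.T (u, yy u) := by rw [mem_T]; exact Or.inl rfl
  have hfu : D.fin Act yy u = yy u := by
    rw [D.fin_touched hnc hu huT, nv_self]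
  by_cases h1 : ∀ v, G.Adj w v → D.c v ≠ yy u
  · have hκy : κ = yy u := by rw [hκ]; unfold kap; rw [if_pos h1]
    unfold cnt
    rw [Finset.card_eq_one]
    refine ⟨u, ?_⟩
    ext s
    rw [Finset.mem_filter, Finset.mem_singleton, SimpleGraph.mem_neighborFinset]
    constructor
    · rintro ⟨hws, hs⟩
      by_contra hne
      by_cases ht : ∃ v, Act v ∧ s ∈ D.T (v, yy v)
      · obtain ⟨v, hv, hsv⟩ := ht
        rw [D.fin_touched hnc hv hsv] at hs
        by_cases hvu : v = u
        · subst hvu
          rw [mem_T] at hsv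
          rcases hsv with hsv | ⟨_, hsv⟩
          · exact hne hsv
          · exact h1 s hws hsv
        · exact hsp v hv hvu ⟨hval v hv, s, hsv, hws, Or.inr hs⟩
      · push Not at ht
        rw [D.fin_untouched ht, hκy] at hs
        exact h1 s hws hs
    · rintro rfl
      exact ⟨hwu, by rw [hfu, hκy]⟩
  · have hκy : κ = D.c u := by rw [hκ]; unfold kap; rw [if_neg h1]
    have h2 : D.n w (D.c u) = 2 ∧ D.n u (yy u) = 0 := by
      rcases hg.2.2 with h | h
      · exact absurd h h1
      · exact h
    have hTu : ∀ s, s ∈ D.T (u, yy u) → s = u := by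
      intro s hs
      rw [mem_T] at hs
      rcases hs with hs | ⟨hs1, hs2⟩
      · exact hs
      · exfalso
        have h3 : 1 ≤ cnt G D.c u (D.c s) := cnt_pos (c := D.c) hs1
        have h4 : cnt G D.c u (yy u) = 0 := h2.2
        have hs2' : D.c s = yy u := hs2
        rw [hs2', h4] at h3
        omega
    -- the partner
    have h3 : ∃ v, v ≠ u ∧ G.Adj w v ∧ D.c v = D.c u ∧
        ∀ s, G.Adj w s → D.c s = D.c u → s = u ∨ s = v := by
      have h4 := h2.1
      unfold n cnt at h4
      obtain ⟨a, b, hab, he⟩ := Finset.card_eq_two.mp h4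
      have hmem : ∀ s, (G.Adj w s ∧ D.c s = D.c u) ↔ (s = a ∨ s = b) := by
        intro s
        have := Finset.ext_iff.mp he s
        simpa using this
      rcases (hmem u).mp ⟨hwu, rfl⟩ with hua | hub
      · refine ⟨b, ?_, ((hmem b).mpr (Or.inr rfl)).1, ((hmem b).mpr (Or.inr rfl)).2, ?_⟩
        · rw [hua]; exact hab.symm
        · intro s hs1 hs2
          rw [hua]
          exact (hmem s).mp ⟨hs1, hs2⟩
      · refine ⟨a, ?_, ((hmem a).mpr (Or.inl rfl)).1, ((hmem a).mpr (Or.inl rfl)).2, ?_⟩
        · rw [hub]; exact hab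
        · intro s hs1 hs2
          rw [hub]
          exact ((hmem s).mp ⟨hs1, hs2⟩).symm
    obtain ⟨v, hvu, hwv, hcv, hall⟩ := h3
    have hvT : ∀ t, Act t → v ∉ D.T (t, yy t) := by
      intro t ht hvt
      by_cases htu : t = u
      · subst htu
        exact hvu (hTu v hvt)
      · exact hsp t ht htu ⟨hval t ht, v, hvt, hwv, Or.inl (by rw [hcv, hκy])⟩
    unfold cnt
    rw [Finset.card_eq_one]
    refine ⟨v, ?_⟩
    ext s
    rw [Finset.mem_filter, Finset.mem_singleton, SimpleGraph.mem_neighborFinset]
    constructor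
    · rintro ⟨hws, hs⟩
      by_cases ht : ∃ t, Act t ∧ s ∈ D.T (t, yy t)
      · obtain ⟨t, hact, hst⟩ := ht
        exfalso
        rw [D.fin_touched hnc hact hst] at hs
        by_cases htu : t = u
        · subst htu
          have hsu := hTu s hst
          rw [hsu] at hs
          have h5 := D.nv_self (t, yy t)
          simp only at h5
          rw [h5, hκy] at hs
          exact hg.2.1.1 hs
        · exact hsp t hact htu ⟨hval t hact, s, hst, hws, Or.inr hs⟩
      · push Not at ht
        rw [D.fin_untouched ht, hκy] at hs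
        rcases hall s hws hs with h | h
        · exfalso
          subst h
          exact ht s hu huT
        · exact h
    · rintro rfl
      exact ⟨hwv, by rw [D.fin_untouched hvT, hcv, hκy]⟩

/-- An unspoiled unique colour at `w` remains unique. -/
theorem unique_of_unique (hnc : ∀ u v, Act u → Act v → u ≠ v → ¬ D.Conf (u, yy u) (v, yy v))
    (hval : ∀ u, Act u → D.Valid (u, yy u))
    {w : V} {κ : Fin k} (h1 : D.n w κ = 1)
    (hsp : ∀ v, Act v → ¬ D.Spoil w κ (v, yy v)) :
    cnt G (D.fin Act yy) w κ = 1 := by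
  classical
  have h2 := h1
  unfold n cnt at h2
  obtain ⟨v, hv⟩ := Finset.card_eq_one.mp h2
  have hmem : ∀ s, (G.Adj w s ∧ D.c s = κ) ↔ s = v := by
    intro s
    have := Finset.ext_iff.mp hv s
    simpa using this
  obtain ⟨hwv, hcv⟩ := (hmem v).mpr rfl
  have hvT : ∀ t, Act t → v ∉ D.T (t, yy t) := by
    intro t ht hvt
    exact hsp t ht ⟨hval t ht, v, hvt, hwv, Or.inl hcv⟩
  unfold cnt
  rw [Finset.card_eq_one]
  refine ⟨v, ?_⟩
  ext s
  rw [Finset.mem_filter, Finset.mem_singleton, SimpleGraph.mem_neighborFinset]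
  constructor
  · rintro ⟨hws, hs⟩
    by_cases ht : ∃ t, Act t ∧ s ∈ D.T (t, yy t)
    · obtain ⟨t, hact, hst⟩ := ht
      exfalso
      rw [D.fin_touched hnc hact hst] at hs
      exact hsp t hact ⟨hval t hact, s, hst, hws, Or.inr hs⟩
    · push Not at ht
      rw [D.fin_untouched ht] at hs
      exact (hmem s).mp ⟨hws, hs⟩
  · rintro rfl
    exact ⟨hwv, by rw [D.fin_untouched hvT, hcv]⟩

end exec

end Data

end Pool.Agent.Helper14.Pcf
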