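import Pool.Agent.Helper14.Pcf.Target

/-! # The deterministic part: a point avoiding all bad events gives the colouring -/

set_option autoImplicit false
set_option linter.unusedSectionVars false

namespace Pool.Agent.Helper14.Pcf

open Finset

variable {V : Type*} [Fintype V] [DecidableEq V] {G : SimpleGraph V} [DecidableRel G.Adj] {k : ℕ}

/-- The vertices of a set of pairs of operations. -/
def pdom (P : Finset ((V × Fin k) × (V × Fin k))) : Finset V :=
  P.image (fun q => q.1.1) ∪ P.image (fun q => q.2.1)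

theorem pdom_card_le (P : Finset ((V × Fin k) × (V × Fin k))) : (pdom P).card ≤ 2 * P.card := by
  have h1 := Finset.card_union_le (P.image (fun q => q.1.1)) (P.image (fun q => q.2.1))
  have h2 : (P.image (fun q : (V × Fin k) × (V × Fin k) => q.1.1)).card ≤ P.card :=
    Finset.card_image_le
  have h3 : (P.image (fun q : (V × Fin k) × (V × Fin k) => q.2.1)).card ≤ P.card :=
    Finset.card_image_le
  unfold pdom
  omega

theorem pdom_sub {P F : Finset ((V × Fin k) × (V × Fin k))} (hPF : P ⊆ F)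
    (hF : (pdom F).card = 2 * F.card) : (pdom P).card = 2 * P.card := by
  apply le_antisymm (pdom_card_le P)
  have h1 : pdom F ⊆ pdom P ∪ pdom (F \ P) := by
    intro v hv
    unfold pdom at hv ⊢
    simp only [Finset.mem_union, Finset.mem_image] at hv ⊢
    rcases hv with ⟨q, hq, rfl⟩ | ⟨q, hq, rfl⟩
    · by_cases h : q ∈ P
      · exact Or.inl (Or.inl ⟨q, h, rfl⟩)
      · exact Or.inr (Or.inl ⟨q, Finset.mem_sdiff.mpr ⟨hq, h⟩, rfl⟩)
    · by_cases h : q ∈ P
      · exact Or.inl (Or.inr ⟨q, h, rfl⟩)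
      · exact Or.inr (Or.inr ⟨q, Finset.mem_sdiff.mpr ⟨hq, h⟩, rfl⟩)
  have h2 := Finset.card_le_card h1
  have h3 := Finset.card_union_le (pdom P) (pdom (F \ P))
  have h4 := pdom_card_le (F \ P)
  have h5 := Finset.card_sdiff_add_card_eq_card hPF
  omega

namespace Data

variable (D : Data G k)

open Classical in
/-- The spoil pairs at `w`. -/
noncomputable def Pairs (w : V) (N : Finset V) : Finset ((V × Fin k) × (V × Fin k)) :=
  Finset.univ.filter fun q => q.1.1 ∈ N ∧ D.Good w q.1 ∧ D.Spoil w (D.kap w q.1) q.2 ∧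
    q.1.1 ≠ q.2.1

open Classical in
/-- The operations spoiling a colour of `R` at `w`. -/
noncomputable def Kill (w : V) (R : Finset (Fin k)) : Finset (V × Fin k) :=
  Finset.univ.filter fun q => ∃ κ ∈ R, D.Spoil w κ q

section det

variable {K : ℕ} (z0 : Fin K) (ω : V → Fin K × Fin k)

/-- The active vertices. -/
def Act (u : V) : Prop := (ω u).1 = z0 ∧ D.Valid (u, (ω u).2)

theorem target_ok {m : ℕ} {w : V} {N : Finset V}
    (hnc : ∀ u v, D.Act z0 ω u → D.Act z0 ω v → u ≠ v →
      ¬ D.Conf (u, (ω u).2) (v, (ω v).2))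
    (X : Finset V) (hXN : X ⊆ N) (hX : ∀ u ∈ X, (ω u).1 = z0 ∧ D.Good w (u, (ω u).2))
    (hXc : 10 * m < X.card) (hm : 1 ≤ m)
    (hb : ∀ P : Finset ((V × Fin k) × (V × Fin k)), P ⊆ D.Pairs w N → P.card = m →
      (pdom P).card = 2 * m →
      ∃ q ∈ P, ¬ (ω q.1.1 = (z0, q.1.2) ∧ ω q.2.1 = (z0, q.2.2))) :
    ∃ κ, cnt G (D.fin (D.Act z0 ω) (fun u => (ω u).2)) w κ = 1 := by
  classical
  set S := (D.Pairs w N).filter fun q => ω q.1.1 = (z0, q.1.2) ∧ ω q.2.1 = (z0, q.2.2) with hS
  obtain ⟨F, hF, hFmax⟩ := Finset.exists_max_image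
    (S.powerset.filter fun F => (pdom F).card = 2 * F.card) Finset.card
    ⟨∅, Finset.mem_filter.mpr ⟨Finset.mem_powerset.mpr (Finset.empty_subset _), by simp [pdom]⟩⟩
  rw [Finset.mem_filter, Finset.mem_powerset] at hF
  obtain ⟨hFS, hFd⟩ := hF
  -- F is small
  have hFm : F.card < m := by
    by_contra hcon
    push Not at hcon
    obtain ⟨P, hPF, hPc⟩ := Finset.exists_subset_card_eq hcon
    have h1 : P ⊆ D.Pairs w N := hPF.trans (hFS.trans (Finset.filter_subset _ _))
    have h2 := pdom_sub hPF hFd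
    obtain ⟨q, hq, hq2⟩ := hb P h1 hPc (by rw [h2, hPc])
    exact hq2 (Finset.mem_filter.mp (hFS (hPF hq))).2
  -- maximality
  have hmax : ∀ q ∈ S, q.1.1 ∈ pdom F ∨ q.2.1 ∈ pdom F := by
    intro q hq
    by_contra hcon
    push Not at hcon
    have hne : q.1.1 ≠ q.2.1 := (Finset.mem_filter.mp (Finset.mem_filter.mp hq).1).2.2.2.2
    have hqF : q ∉ F := by
      intro h
      apply hcon.1
      unfold pdom
      exact Finset.mem_union_left _ (Finset.mem_image_of_mem _ h)
    have h1 : pdom (insert q F) = insert q.1.1 (insert q.2.1 (pdom F)) := by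
      unfold pdom
      rw [Finset.image_insert, Finset.image_insert]
      ext v
      simp only [Finset.mem_union, Finset.mem_insert]
      tauto
    have h2 : (pdom (insert q F)).card = 2 * (insert q F).card := by
      rw [h1, Finset.card_insert_of_notMem, Finset.card_insert_of_notMem hcon.2, hFd,
        Finset.card_insert_of_notMem hqF]
      · ring
      · rw [Finset.mem_insert, not_or]
        exact ⟨hne, hcon.1⟩
    have h3 := hFmax (insert q F) (Finset.mem_filter.mpr ⟨Finset.mem_powerset.mpr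
      (Finset.insert_subset hq hFS), h2⟩)
    rw [Finset.card_insert_of_notMem hqF] at h3
    omega
  set Cov := pdom F with hCov
  have hCovc : Cov.card ≤ 2 * m := by rw [hFd]; omega
  -- the vertices in the cover are valid
  have hval : ∀ v ∈ Cov, D.Valid (v, (ω v).2) := by
    intro v hv
    rw [hCov] at hv
    unfold pdom at hv
    rw [Finset.mem_union, Finset.mem_image, Finset.mem_image] at hv
    rcases hv with ⟨q, hq, rfl⟩ | ⟨q, hq, rfl⟩
    · have h1 := Finset.mem_filter.mp (hFS hq)
      have h2 := (Finset.mem_filter.mp h1.1).2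
      have h3 := h2.2.1.2.1
      rw [h1.2.1]
      exact h3
    · have h1 := Finset.mem_filter.mp (hFS hq)
      have h2 := (Finset.mem_filter.mp h1.1).2
      have h3 := h2.2.2.1.1
      rw [h1.2.2]
      exact h3
  set Col := Cov.biUnion fun v => D.cols (v, (ω v).2) with hCol
  have hColc : Col.card ≤ 8 * m := by
    have h1 : Col.card ≤ Cov.card * 4 :=
      Finset.card_biUnion_le_card_mul _ _ 4 (fun v hv => D.card_cols (hval v hv))
    omega
  set Y := X \ Cov with hY
  have hYc : 8 * m < Y.card := by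
    have h1 : X.card - Cov.card ≤ Y.card := Finset.le_card_sdiff Cov X
    omega
  have hmem : ∀ u ∈ Y, ∀ v, (ω v).1 = z0 → v ≠ u →
      D.Spoil w (D.kap w (u, (ω u).2)) (v, (ω v).2) →
      ((u, (ω u).2), (v, (ω v).2)) ∈ S := by
    intro u hu v hv hvu hsp
    have h1 := Finset.mem_sdiff.mp hu
    have h2 := hX u h1.1
    refine Finset.mem_filter.mpr ⟨Finset.mem_filter.mpr ⟨Finset.mem_univ _, hXN h1.1, h2.2, hsp,
      Ne.symm hvu⟩, ?_, ?_⟩
    · exact Prod.ext h2.1 rfl
    · exact Prod.ext hv rfl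
  have hinj : Set.InjOn (fun u => D.kap w (u, (ω u).2)) (Y : Set V) := by
    intro u hu v hv huv
    by_contra hne
    simp only at huv
    have h1 := Finset.mem_sdiff.mp (Finset.mem_coe.mp hu)
    have h2 := Finset.mem_sdiff.mp (Finset.mem_coe.mp hv)
    have h3 := hX v h2.1
    have h4 := h3.2.spoil
    rw [← huv] at h4
    have h5 := hmax _ (hmem u hu v h3.1 (Ne.symm hne) h4)
    rcases h5 with h5 | h5
    · exact h1.2 h5
    · exact h2.2 h5
  have hex : ∃ u ∈ Y, D.kap w (u, (ω u).2) ∉ Col := by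
    by_contra hcon
    push Not at hcon
    have h1 : (Y.image fun u => D.kap w (u, (ω u).2)) ⊆ Col := by
      intro z hz
      obtain ⟨u, hu, rfl⟩ := Finset.mem_image.mp hz
      exact hcon u hu
    have h2 := Finset.card_le_card h1
    rw [Finset.card_image_of_injOn hinj] at h2
    omega
  obtain ⟨u, huY, hκ⟩ := hex
  have hu1 := Finset.mem_sdiff.mp huY
  have hu2 := hX u hu1.1
  refine ⟨D.kap w (u, (ω u).2), ?_⟩
  apply D.unique_of_good hnc (fun v hv => hv.2) (u := u) ⟨hu2.1, hu2.2.2.1⟩ hu2.2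
  intro v hv hvu hsp
  have h3 := hmax _ (hmem u huY v hv.1 hvu hsp)
  rcases h3 with h3 | h3
  · exact hu1.2 h3
  · apply hκ
    rw [hCol, Finset.mem_biUnion]
    exact ⟨v, h3, hsp.mem_cols⟩

theorem robust_ok {m : ℕ} {w : V} (R : Finset (Fin k)) (hR : ∀ κ ∈ R, D.n w κ = 1)
    (hRc : R.card = 4 * m)
    (hnc : ∀ u v, D.Act z0 ω u → D.Act z0 ω v → u ≠ v →
      ¬ D.Conf (u, (ω u).2) (v, (ω v).2))
    (hd : ∀ P : Finset (V × Fin k), P ⊆ D.Kill w R → P.card = m →
      (P.image Prod.fst).card = m → ∃ q ∈ P, ¬ (ω q.1 = (z0, q.2))) :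
    ∃ κ, cnt G (D.fin (D.Act z0 ω) (fun u => (ω u).2)) w κ = 1 := by
  classical
  by_cases hex : ∃ κ ∈ R, ∀ v, D.Act z0 ω v → ¬ D.Spoil w κ (v, (ω v).2)
  · obtain ⟨κ, hκ, h⟩ := hex
    exact ⟨κ, D.unique_of_unique hnc (fun v hv => hv.2) (hR κ hκ) h⟩
  · exfalso
    push Not at hex
    have hex' : ∀ κ, ∃ v, κ ∈ R → (D.Act z0 ω v ∧ D.Spoil w κ (v, (ω v).2)) := by
      intro κ
      by_cases hκ : κ ∈ R
      · obtain ⟨v, hv⟩ := hex κ hκ
        exact ⟨v, fun _ => hv⟩
      · exact ⟨w, fun h => absurd h hκ⟩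
    choose g hg using hex'
    set Z := R.image g with hZ
    have hZc : R.card ≤ 4 * Z.card := by
      apply Finset.card_le_mul_card_image (f := g) R 4
      intro v hv
      obtain ⟨κ, hκ, rfl⟩ := Finset.mem_image.mp hv
      refine (Finset.card_le_card ?_).trans (D.card_cols (hg κ hκ).1.2)
      intro κ' hκ'
      have h1 := Finset.mem_filter.mp hκ'
      have h2 := (hg κ' h1.1).2.mem_cols
      rw [h1.2] at h2
      exact h2
    obtain ⟨Z', hZ', hZ'c⟩ := Finset.exists_subset_card_eq (s := Z) (n := m) (by omega)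
    set P := Z'.image fun v => (v, (ω v).2) with hP
    have hinj : Function.Injective fun v : V => (v, (ω v).2) := by
      intro a b h
      exact congrArg Prod.fst h
    have hPc : P.card = m := by
      rw [hP, Finset.card_image_of_injective _ hinj, hZ'c]
    have hPd : P.image Prod.fst = Z' := by
      rw [hP, Finset.image_image]
      ext v
      simp
    obtain ⟨q, hq, hq2⟩ := hd P (by
      intro q hq
      obtain ⟨v, hv, rfl⟩ := Finset.mem_image.mp hq
      obtain ⟨κ, hκ, rfl⟩ := Finset.mem_image.mp (hZ' hv)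
      exact Finset.mem_filter.mpr ⟨Finset.mem_univ _, κ, hκ, (hg κ hκ).2⟩) hPc
        (by rw [hPd, hZ'c])
    obtain ⟨v, hv, rfl⟩ := Finset.mem_image.mp hq
    obtain ⟨κ, hκ, rfl⟩ := Finset.mem_image.mp (hZ' hv)
    exact hq2 (Prod.ext (hg κ hκ).1.1 rfl)

end det

open Classical in
theorem card_Pairs (w : V) (N : Finset V) : (D.Pairs w N).card ≤ N.card * k * (8 * k) := by
  have hsub : D.Pairs w N ⊆ ((N ×ˢ (Finset.univ : Finset (Fin k))).filter
      fun p => D.Good w p).biUnion fun p =>
        (Finset.univ.filter fun q => D.Spoil w (D.kap w p) q).image fun q => (p, q) := by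
    intro q hq
    have h1 := (Finset.mem_filter.mp hq).2
    refine Finset.mem_biUnion.mpr ⟨q.1, ?_, ?_⟩
    · exact Finset.mem_filter.mpr ⟨Finset.mem_product.mpr ⟨h1.1, Finset.mem_univ _⟩, h1.2.1⟩
    · exact Finset.mem_image.mpr ⟨q.2, Finset.mem_filter.mpr ⟨Finset.mem_univ _, h1.2.2.1⟩, rfl⟩
  refine (Finset.card_le_card hsub).trans ?_
  refine (Finset.card_biUnion_le_card_mul _ _ (8 * k) ?_).trans ?_
  · intro p hp
    refine Finset.card_image_le.trans ?_
    exact D.card_spoil w _ (D.n_kap_le (Finset.mem_filter.mp hp).2)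
  · apply Nat.mul_le_mul_right
    refine (Finset.card_filter_le _ _).trans ?_
    rw [Finset.card_product, Finset.card_univ, Fintype.card_fin]

theorem card_Kill (w : V) (R : Finset (Fin k)) (hR : ∀ κ ∈ R, D.n w κ = 1) :
    (D.Kill w R).card ≤ R.card * (8 * k) := by
  classical
  have hsub : D.Kill w R ⊆ R.biUnion fun κ => Finset.univ.filter fun q => D.Spoil w κ q := by
    intro q hq
    obtain ⟨κ, hκ, h⟩ := (Finset.mem_filter.mp hq).2
    exact Finset.mem_biUnion.mpr ⟨κ, hκ, Finset.mem_filter.mpr ⟨Finset.mem_univ _, h⟩⟩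
  refine (Finset.card_le_card hsub).trans ?_
  apply Finset.card_biUnion_le_card_mul
  intro κ hκ
  have := D.card_spoil w κ (by rw [hR κ hκ]; omega)
  convert this

/-- The vertices near `v`. -/
def nearset (G : SimpleGraph V) [DecidableRel G.Adj] (v : V) : Finset V :=
  G.neighborFinset v ∪ (G.neighborFinset v).biUnion fun s => G.neighborFinset s

theorem mem_nearset {v w : V} :
    w ∈ nearset G v ↔ (G.Adj v w ∨ ∃ s, G.Adj v s ∧ G.Adj s w) := by
  simp [nearset]

theorem card_nearset (hdeg : ∀ v, G.degree v + 1 ≤ k) (v : V) :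
    (nearset G v).card ≤ k * k := by
  have h1 : (G.neighborFinset v).card + 1 ≤ k := by
    rw [SimpleGraph.card_neighborFinset_eq_degree]; exact hdeg v
  have h2 : ((G.neighborFinset v).biUnion fun s => G.neighborFinset s).card ≤
      (G.neighborFinset v).card * (k - 1) := by
    apply Finset.card_biUnion_le_card_mul
    intro s _
    rw [SimpleGraph.card_neighborFinset_eq_degree]
    have := hdeg s
    omega
  have h3 := Finset.card_union_le (G.neighborFinset v)
    ((G.neighborFinset v).biUnion fun s => G.neighborFinset s)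
  unfold nearset
  obtain ⟨j, rfl⟩ : ∃ j, k = j + 1 := ⟨k - 1, by omega⟩
  simp only [Nat.add_sub_cancel] at h2
  have h4 : (G.neighborFinset v).card * j ≤ j * j := Nat.mul_le_mul_right _ (by omega)
  nlinarith

end Data

end Pool.Agent.Helper14.Pcf
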