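import Pool.Agent.Helper14.Pcf.Lll

/-! # Counting estimates on the product space -/

set_option autoImplicit false
set_option linter.unusedSectionVars false

namespace Pool.Agent.Helper14.Pcf

open Finset Pool.Agent.Helper14.Sq

section

variable {V A : Type*} [Fintype V] [DecidableEq V] [Fintype A] [DecidableEq A] [Nonempty A]

theorem exp_neg_moment (N : Finset V) (B : V → Finset A) :
    ∑ a : V → A, Real.exp (∑ w ∈ N, if a w ∈ B w then (-1 : ℝ) else 0) ≤
      (Fintype.card (V → A) : ℝ) *
        Real.exp (-(1 / 2) * ∑ w ∈ N, ((B w).card : ℝ) / (Fintype.card A : ℝ)) := by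
  have hA : (0 : ℝ) < (Fintype.card A : ℝ) := by exact_mod_cast Fintype.card_pos
  have h1 : ∀ a : V → A, Real.exp (∑ w ∈ N, if a w ∈ B w then (-1 : ℝ) else 0) =
      ∏ w, Real.exp (if w ∈ N then (if a w ∈ B w then (-1 : ℝ) else 0) else 0) := by
    intro a
    rw [← Real.exp_sum, Finset.sum_ite_mem, Finset.univ_inter]
  simp only [h1]
  have h2 : ∑ a : V → A, ∏ w, Real.exp (if w ∈ N then (if a w ∈ B w then (-1 : ℝ) else 0) else 0) =
      ∏ w, ∑ x : A, Real.exp (if w ∈ N then (if x ∈ B w then (-1 : ℝ) else 0) else 0) := by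
    rw [Finset.prod_univ_sum, Fintype.piFinset_univ]
  rw [h2]
  have h3 : ∀ w, ∑ x : A, Real.exp (if w ∈ N then (if x ∈ B w then (-1 : ℝ) else 0) else 0) ≤
      (Fintype.card A : ℝ) *
        Real.exp (if w ∈ N then -(1 / 2) * (((B w).card : ℝ) / (Fintype.card A : ℝ)) else 0) := by
    intro w
    by_cases hw : w ∈ N
    · simp only [hw, if_true]
      have e1 : ∑ x : A, Real.exp (if x ∈ B w then (-1 : ℝ) else 0) =
          ∑ x : A, (1 + if x ∈ B w then (Real.exp (-1) - 1) else 0) := by
        refine Finset.sum_congr rfl fun x _ => ?_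
        by_cases hx : x ∈ B w <;> simp [hx]
      rw [e1, Finset.sum_add_distrib, Finset.sum_const, Finset.card_univ, nsmul_eq_mul, mul_one,
        Finset.sum_ite_mem, Finset.univ_inter, Finset.sum_const, nsmul_eq_mul]
      have e2 : Real.exp (-1) - 1 ≤ -(1 / 2) := by
        have h4 : Real.exp (-1) ≤ 1 / 2 := by
          rw [Real.exp_neg, inv_le_comm₀ (Real.exp_pos _) (by norm_num)]
          have := Real.add_one_le_exp (1 : ℝ)
          norm_num
          linarith
        linarith
      have e3 : -(1 / 2) * (((B w).card : ℝ) / (Fintype.card A : ℝ)) + 1 ≤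
          Real.exp (-(1 / 2) * (((B w).card : ℝ) / (Fintype.card A : ℝ))) :=
        Real.add_one_le_exp _
      have e4 : (0 : ℝ) ≤ ((B w).card : ℝ) := Nat.cast_nonneg _
      calc (Fintype.card A : ℝ) + ((B w).card : ℝ) * (Real.exp (-1) - 1)
          ≤ (Fintype.card A : ℝ) + ((B w).card : ℝ) * (-(1 / 2)) := by gcongr
        _ = (Fintype.card A : ℝ) *
              (-(1 / 2) * (((B w).card : ℝ) / (Fintype.card A : ℝ)) + 1) := by
            field_simp
            ring
        _ ≤ _ := by gcongr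
    · simp [hw]
  calc ∏ w, ∑ x : A, Real.exp (if w ∈ N then (if x ∈ B w then (-1 : ℝ) else 0) else 0)
      ≤ ∏ w : V, ((Fintype.card A : ℝ) *
          Real.exp (if w ∈ N then -(1 / 2) * (((B w).card : ℝ) / (Fintype.card A : ℝ)) else 0)) := by
        apply Finset.prod_le_prod
        · intro w _
          exact Finset.sum_nonneg fun x _ => (Real.exp_pos _).le
        · intro w _
          exact h3 w
    _ = _ := by
        rw [Finset.prod_mul_distrib, Finset.prod_const, Finset.card_univ, ← Real.exp_sum,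
          Finset.sum_ite_mem, Finset.univ_inter, ← Finset.mul_sum, Fintype.card_fun]
        push_cast
        ring

/-- Few hits are unlikely. -/
theorem lower_tail (N : Finset V) (B : V → Finset A) (t : ℝ) (Bad : Finset (V → A))
    (hBad : ∀ a ∈ Bad, ((N.filter fun w => a w ∈ B w).card : ℝ) ≤ t) :
    (Bad.card : ℝ) ≤ (Fintype.card (V → A) : ℝ) *
      Real.exp (t - (1 / 2) * ∑ w ∈ N, ((B w).card : ℝ) / (Fintype.card A : ℝ)) := by
  have h0 : ∀ a ∈ Bad, -t ≤ ∑ w ∈ N, (if a w ∈ B w then (-1 : ℝ) else 0) := by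
    intro a ha
    have h1 := hBad a ha
    have h2 : ∑ w ∈ N, (if a w ∈ B w then (-1 : ℝ) else 0) =
        -((N.filter fun w => a w ∈ B w).card : ℝ) := by
      rw [← Finset.sum_filter, Finset.sum_const, nsmul_eq_mul]
      ring
    rw [h2]
    linarith
  have h1 : (Bad.card : ℝ) * Real.exp (-t) ≤
      ∑ a : V → A, Real.exp (∑ w ∈ N, if a w ∈ B w then (-1 : ℝ) else 0) := by
    calc (Bad.card : ℝ) * Real.exp (-t) = ∑ _a ∈ Bad, Real.exp (-t) := by
          rw [Finset.sum_const, nsmul_eq_mul]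
      _ ≤ ∑ a ∈ Bad, Real.exp (∑ w ∈ N, if a w ∈ B w then (-1 : ℝ) else 0) :=
          Finset.sum_le_sum fun a ha => Real.exp_le_exp.mpr (h0 a ha)
      _ ≤ _ := Finset.sum_le_sum_of_subset_of_nonneg (Finset.subset_univ _)
          fun a _ _ => (Real.exp_pos _).le
  have h2 := h1.trans (exp_neg_moment N B)
  have h3 : Real.exp (-t) * Real.exp t = 1 := by
    rw [← Real.exp_add, neg_add_cancel, Real.exp_zero]
  calc (Bad.card : ℝ) = (Bad.card : ℝ) * Real.exp (-t) * Real.exp t := by
        rw [mul_assoc, h3, mul_one]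
    _ ≤ _ := mul_le_mul_of_nonneg_right h2 (Real.exp_pos _).le
    _ = _ := by
        rw [mul_assoc, ← Real.exp_add]
        congr 2
        ring

/-- The number of points with prescribed coordinates on `S`. -/
theorem card_fixed (S : Finset V) (h : V → A) :
    (Finset.univ.filter fun a : V → A => ∀ v ∈ S, a v = h v).card * (Fintype.card A) ^ S.card =
      Fintype.card (V → A) := by
  have h1 : (Finset.univ.filter fun a : V → A => ∀ v ∈ S, a v = h v) =
      Fintype.piFinset fun v => if v ∈ S then {h v} else Finset.univ := by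
    ext a
    simp only [Finset.mem_filter, Finset.mem_univ, true_and, Fintype.mem_piFinset]
    refine forall_congr' fun v => ?_
    by_cases hv : v ∈ S <;> simp [hv]
  rw [h1, Fintype.card_piFinset]
  have h2 : ∀ v, (if v ∈ S then ({h v} : Finset A) else Finset.univ).card =
      if v ∈ S then 1 else Fintype.card A := by
    intro v
    by_cases hv : v ∈ S <;> simp [hv]
  simp only [h2]
  have h3 : (Fintype.card A) ^ S.card = ∏ v : V, if v ∈ S then Fintype.card A else 1 := by
    rw [Finset.prod_ite_mem, Finset.univ_inter, Finset.prod_const]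
  rw [h3, ← Finset.prod_mul_distrib]
  have h4 : ∀ v, (if v ∈ S then 1 else Fintype.card A) * (if v ∈ S then Fintype.card A else 1) =
      Fintype.card A := by
    intro v
    by_cases hv : v ∈ S <;> simp [hv]
  simp only [h4]
  rw [Finset.prod_const, Finset.card_univ, Fintype.card_fun]

end

theorem choose_bound (N m : ℕ) (hm : 1 ≤ m) (y : ℝ) (hy : 0 ≤ y) :
    (N.choose m : ℝ) * y ^ m ≤ (Real.exp 1 * N * y / m) ^ m := by
  have hm' : (0 : ℝ) < m := by exact_mod_cast hm
  have h1 : (N.choose m : ℝ) ≤ (N : ℝ) ^ m / (m.factorial : ℝ) := Nat.choose_le_pow_div m N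
  have h2 : (m : ℝ) ^ m / (m.factorial : ℝ) ≤ Real.exp m :=
    Real.pow_div_factorial_le_exp (m : ℝ) hm'.le m
  have hf : (0 : ℝ) < (m.factorial : ℝ) := by exact_mod_cast m.factorial_pos
  have h3 : (m : ℝ) ^ m ≤ Real.exp m * (m.factorial : ℝ) := by
    rwa [div_le_iff₀ hf] at h2
  have hmm : (0 : ℝ) < (m : ℝ) ^ m := pow_pos hm' m
  have h4 : (N : ℝ) ^ m / (m.factorial : ℝ) ≤ (N : ℝ) ^ m * Real.exp m / (m : ℝ) ^ m := by
    rw [div_le_div_iff₀ hf hmm]
    have h5 : (0 : ℝ) ≤ (N : ℝ) ^ m := by positivity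
    calc (N : ℝ) ^ m * (m : ℝ) ^ m ≤ (N : ℝ) ^ m * (Real.exp m * (m.factorial : ℝ)) :=
          mul_le_mul_of_nonneg_left h3 h5
      _ = _ := by ring
  have h6 : Real.exp (m : ℝ) = Real.exp 1 ^ m := by
    rw [← Real.exp_nat_mul, mul_one]
  calc (N.choose m : ℝ) * y ^ m ≤ ((N : ℝ) ^ m * Real.exp m / (m : ℝ) ^ m) * y ^ m := by
        apply mul_le_mul_of_nonneg_right (h1.trans h4)
        positivity
    _ = (Real.exp 1 * N * y / m) ^ m := by
        rw [h6]
        rw [div_pow, mul_pow, mul_pow]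
        ring

end Pool.Agent.Helper14.Pcf
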