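import Pool.Agent.Helper14.Pcf.Det
import Pool.Agent.Helper14.Pcf.Prob

/-! # The families of bad events -/

set_option autoImplicit false
set_option linter.unusedSectionVars false

namespace Pool.Agent.Helper14.Pcf

open Finset Pool.Agent.Helper14.Sq

variable {V : Type*} [Fintype V] [DecidableEq V] {G : SimpleGraph V} [DecidableRel G.Adj] {k : ℕ}

section cyl

variable {K : ℕ} (z0 : Fin K)

/-- All operations of `τ` are active. -/
def cyl (τ : Finset (V × Fin k)) : Finset (V → Fin K × Fin k) :=
  Finset.univ.filter fun ω => ∀ p ∈ τ, ω p.1 = (z0, p.2)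

/-- The vertices of a set of operations. -/
def dom (τ : Finset (V × Fin k)) : Finset V := τ.image Prod.fst

theorem mem_cyl {τ : Finset (V × Fin k)} {ω : V → Fin K × Fin k} :
    ω ∈ cyl z0 τ ↔ ∀ p ∈ τ, ω p.1 = (z0, p.2) := by
  simp [cyl]

theorem cyl_dependsOn (τ : Finset (V × Fin k)) : DependsOn' (cyl z0 τ) (dom τ) := by
  intro a b hab
  rw [mem_cyl, mem_cyl]
  refine forall₂_congr fun p hp => ?_
  rw [hab p.1 (Finset.mem_image_of_mem _ hp)]

theorem cyl_card [Nonempty (Fin k)] (τ : Finset (V × Fin k)) :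
    ((cyl z0 τ).card : ℝ) * ((K : ℝ) * k) ^ (dom τ).card ≤
      (Fintype.card (V → Fin K × Fin k) : ℝ) := by
  classical
  have : Nonempty (Fin K × Fin k) := ⟨(z0, Classical.arbitrary _)⟩
  set h : V → Fin K × Fin k := fun v =>
    if hv : ∃ p ∈ τ, p.1 = v then (z0, hv.choose.2) else Classical.arbitrary _ with hh
  have hsub : cyl z0 τ ⊆ Finset.univ.filter fun a : V → Fin K × Fin k =>
      ∀ v ∈ dom τ, a v = h v := by
    intro a ha
    rw [mem_cyl] at ha
    refine Finset.mem_filter.mpr ⟨Finset.mem_univ _, fun v hv => ?_⟩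
    obtain ⟨p, hp, rfl⟩ := Finset.mem_image.mp hv
    have h1 : ∃ q ∈ τ, q.1 = p.1 := ⟨p, hp, rfl⟩
    have h2 : h p.1 = (z0, h1.choose.2) := by
      rw [hh]
      simp only
      rw [dif_pos h1]
    rw [h2]
    have h3 := h1.choose_spec
    have h4 := ha _ h3.1
    rw [h3.2] at h4
    exact h4
  have h1 := Finset.card_le_card hsub
  have h2 := card_fixed (dom τ) h
  have h3 : Fintype.card (Fin K × Fin k) = K * k := by simp
  rw [h3] at h2
  have h4 : (cyl z0 τ).card * (K * k) ^ (dom τ).card ≤
      Fintype.card (V → Fin K × Fin k) := by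
    rw [← h2]
    exact Nat.mul_le_mul_right _ h1
  exact_mod_cast h4

end cyl

namespace Data

variable (D : Data G k)

open Classical in
/-- The conflict events. -/
noncomputable def TA : Finset (Finset (V × Fin k)) :=
  (Finset.univ.filter fun q : (V × Fin k) × (V × Fin k) =>
    D.Valid q.1 ∧ D.Valid q.2 ∧ q.1.1 ≠ q.2.1 ∧ D.Conf q.1 q.2).image fun q => {q.1, q.2}

theorem dom_TA {τ : Finset (V × Fin k)} (h : τ ∈ D.TA) : (dom τ).card = 2 := by
  classical
  obtain ⟨q, hq, rfl⟩ := Finset.mem_image.mp h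
  have h1 := (Finset.mem_filter.mp hq).2
  unfold dom
  rw [Finset.image_insert, Finset.image_singleton, Finset.card_pair h1.2.2.1]

theorem count_TA (v : V) : (D.TA.filter fun τ => v ∈ dom τ).card ≤ k * (12 * k) := by
  classical
  have hsub : (D.TA.filter fun τ => v ∈ dom τ) ⊆
      ((Finset.univ : Finset (Fin k)).filter fun y => D.Valid (v, y)).biUnion fun y =>
        (Finset.univ.filter fun q => D.Conf (v, y) q).image fun q => {(v, y), q} := by
    intro τ hτ
    obtain ⟨h1, h2⟩ := Finset.mem_filter.mp hτ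
    obtain ⟨q, hq, rfl⟩ := Finset.mem_image.mp h1
    have h3 := (Finset.mem_filter.mp hq).2
    unfold dom at h2
    rw [Finset.image_insert, Finset.image_singleton, Finset.mem_insert,
      Finset.mem_singleton] at h2
    rcases h2 with h2 | h2
    · refine Finset.mem_biUnion.mpr ⟨q.1.2, ?_, ?_⟩
      · refine Finset.mem_filter.mpr ⟨Finset.mem_univ _, ?_⟩
        rw [h2]
        exact h3.1
      · refine Finset.mem_image.mpr ⟨q.2, Finset.mem_filter.mpr ⟨Finset.mem_univ _, ?_⟩, ?_⟩
        · rw [h2]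
          exact h3.2.2.2
        · rw [h2]
    · refine Finset.mem_biUnion.mpr ⟨q.2.2, ?_, ?_⟩
      · refine Finset.mem_filter.mpr ⟨Finset.mem_univ _, ?_⟩
        rw [h2]
        exact h3.2.1
      · refine Finset.mem_image.mpr ⟨q.1, Finset.mem_filter.mpr ⟨Finset.mem_univ _, ?_⟩, ?_⟩
        · rw [h2]
          exact Conf.symm D h3.2.2.2
        · rw [h2]
          exact Finset.pair_comm _ _
  refine (Finset.card_le_card hsub).trans ?_
  refine (Finset.card_biUnion_le_card_mul _ _ (12 * k) ?_).trans ?_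
  · intro y hy
    refine Finset.card_image_le.trans ?_
    have := D.card_conf (v, y) (Finset.mem_filter.mp hy).2
    convert this
  · apply Nat.mul_le_mul_right
    refine (Finset.card_filter_le _ _).trans ?_
    simp

open Classical in
/-- The spoil events at `w`. -/
noncomputable def TB (m : ℕ) (w : V) (N : Finset V) : Finset (Finset (V × Fin k)) :=
  (((D.Pairs w N).powersetCard m).filter fun P => (pdom P).card = 2 * m).image
    fun P => P.image Prod.fst ∪ P.image Prod.snd

theorem dom_union (P : Finset ((V × Fin k) × (V × Fin k))) :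
    dom (P.image Prod.fst ∪ P.image Prod.snd) = pdom P := by
  unfold dom pdom
  rw [Finset.image_union, Finset.image_image, Finset.image_image]
  rfl

theorem dom_TB {m : ℕ} {w : V} {N : Finset V} {τ : Finset (V × Fin k)} (h : τ ∈ D.TB m w N) :
    (dom τ).card = 2 * m := by
  classical
  obtain ⟨P, hP, rfl⟩ := Finset.mem_image.mp h
  rw [dom_union]
  exact (Finset.mem_filter.mp hP).2

theorem card_TB (m : ℕ) (w : V) (N : Finset V) :
    (D.TB m w N).card ≤ (N.card * k * (8 * k)).choose m := by
  classical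
  unfold TB
  refine Finset.card_image_le.trans ?_
  refine (Finset.card_filter_le _ _).trans ?_
  rw [Finset.card_powersetCard]
  exact Nat.choose_le_choose m (D.card_Pairs w N)

theorem near_TB {m : ℕ} {w v : V} {N : Finset V} {τ : Finset (V × Fin k)}
    (h : τ ∈ D.TB m w N) (hv : v ∈ dom τ) : w ∈ nearset G v := by
  classical
  obtain ⟨P, hP, rfl⟩ := Finset.mem_image.mp h
  rw [dom_union] at hv
  have hPP := (Finset.mem_powersetCard.mp (Finset.mem_filter.mp hP).1).1
  unfold pdom at hv
  rw [Finset.mem_union, Finset.mem_image, Finset.mem_image] at hv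
  rw [mem_nearset]
  rcases hv with ⟨q, hq, rfl⟩ | ⟨q, hq, rfl⟩
  · left
    exact ((Finset.mem_filter.mp (hPP hq)).2.2.1.1).symm
  · exact Spoil.near D (Finset.mem_filter.mp (hPP hq)).2.2.2.1

open Classical in
/-- The killing events at `w`. -/
noncomputable def TD (m : ℕ) (w : V) (R : Finset (Fin k)) : Finset (Finset (V × Fin k)) :=
  ((D.Kill w R).powersetCard m).filter fun τ => (dom τ).card = m

theorem dom_TD {m : ℕ} {w : V} {R : Finset (Fin k)} {τ : Finset (V × Fin k)}
    (h : τ ∈ D.TD m w R) : (dom τ).card = m :=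
  (Finset.mem_filter.mp h).2

theorem card_TD (m : ℕ) (w : V) (R : Finset (Fin k)) (hR : ∀ κ ∈ R, D.n w κ = 1) :
    (D.TD m w R).card ≤ (R.card * (8 * k)).choose m := by
  classical
  unfold TD
  refine (Finset.card_filter_le _ _).trans ?_
  rw [Finset.card_powersetCard]
  exact Nat.choose_le_choose m (D.card_Kill w R hR)

theorem near_TD {m : ℕ} {w v : V} {R : Finset (Fin k)} {τ : Finset (V × Fin k)}
    (h : τ ∈ D.TD m w R) (hv : v ∈ dom τ) : w ∈ nearset G v := by
  classical
  have h1 := (Finset.mem_powersetCard.mp (Finset.mem_filter.mp h).1).1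
  obtain ⟨q, hq, rfl⟩ := Finset.mem_image.mp hv
  obtain ⟨κ, _, h2⟩ := (Finset.mem_filter.mp (h1 hq)).2
  rw [mem_nearset]
  exact Spoil.near D h2

section few

variable {K : ℕ} (z0 : Fin K)

/-- The good letters at `u`. -/
noncomputable def letters (w u : V) : Finset (Fin K × Fin k) :=
  (D.goodVals w u).image fun y => (z0, y)

theorem card_letters (w u : V) : (D.letters z0 w u).card = (D.goodVals w u).card := by
  unfold letters
  rw [Finset.card_image_of_injective]
  intro a b h
  exact congrArg Prod.snd h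

theorem mem_letters {w u : V} {q : Fin K × Fin k} :
    q ∈ D.letters z0 w u ↔ q.1 = z0 ∧ D.Good w (u, q.2) := by
  classical
  unfold letters goodVals
  rw [Finset.mem_image]
  constructor
  · rintro ⟨y, hy, rfl⟩
    exact ⟨rfl, (Finset.mem_filter.mp hy).2⟩
  · rintro ⟨h1, h2⟩
    exact ⟨q.2, Finset.mem_filter.mpr ⟨Finset.mem_univ _, h2⟩, Prod.ext h1.symm rfl⟩

open Classical in
/-- Few good active vertices. -/
noncomputable def EC (m : ℕ) (w : V) (N : Finset V) : Finset (V → Fin K × Fin k) :=
  Finset.univ.filter fun ω => (N.filter fun u => ω u ∈ D.letters z0 w u).card ≤ 10 * m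

theorem EC_dependsOn (m : ℕ) (w : V) (N : Finset V) : DependsOn' (D.EC z0 m w N) N := by
  classical
  intro a b hab
  unfold EC
  rw [Finset.mem_filter, Finset.mem_filter]
  have : (N.filter fun u => a u ∈ D.letters z0 w u) =
      (N.filter fun u => b u ∈ D.letters z0 w u) := by
    apply Finset.filter_congr
    intro u hu
    rw [hab u hu]
  rw [this]
  simp

theorem EC_card [Nonempty (Fin k)] (m : ℕ) (w : V) (N : Finset V) (hK : 0 < K)
    (hN : N.card = 1000 * K * m) (hg : ∀ u ∈ N, k ≤ 12 * (D.goodVals w u).card) :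
    ((D.EC z0 m w N).card : ℝ) ≤
      (Fintype.card (V → Fin K × Fin k) : ℝ) * Real.exp (-(31 * m)) := by
  classical
  have : Nonempty (Fin K × Fin k) := ⟨(z0, Classical.arbitrary _)⟩
  have h1 := lower_tail N (fun u => D.letters z0 w u) (10 * m : ℝ) (D.EC z0 m w N) (by
    intro a ha
    have := (Finset.mem_filter.mp ha).2
    exact_mod_cast this)
  refine h1.trans ?_
  have hΩ : (0 : ℝ) ≤ (Fintype.card (V → Fin K × Fin k) : ℝ) := Nat.cast_nonneg _
  apply mul_le_mul_of_nonneg_left _ hΩ
  apply Real.exp_le_exp.mpr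
  have hK' : (0 : ℝ) < K := by exact_mod_cast hK
  have hk' : (0 : ℝ) < k := by
    have : 0 < k := Fin.pos (Classical.arbitrary (Fin k))
    exact_mod_cast this
  have h2 : ∀ u ∈ N, 1 / (12 * (K : ℝ)) ≤
      ((D.letters z0 w u).card : ℝ) / (Fintype.card (Fin K × Fin k) : ℝ) := by
    intro u hu
    rw [card_letters]
    have h3 : (Fintype.card (Fin K × Fin k) : ℝ) = K * k := by simp
    rw [h3, div_le_div_iff₀ (by positivity) (by positivity)]
    have h4 : (k : ℝ) ≤ 12 * ((D.goodVals w u).card : ℝ) := by exact_mod_cast hg u hu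
    nlinarith
  have h3 : (N.card : ℝ) * (1 / (12 * (K : ℝ))) ≤
      ∑ u ∈ N, ((D.letters z0 w u).card : ℝ) / (Fintype.card (Fin K × Fin k) : ℝ) := by
    rw [← nsmul_eq_mul, ← Finset.sum_const]
    exact Finset.sum_le_sum h2
  have h4 : (N.card : ℝ) * (1 / (12 * (K : ℝ))) = 1000 * m / 12 := by
    rw [hN]
    push_cast
    field_simp
  rw [h4] at h3
  have hm : (0 : ℝ) ≤ m := Nat.cast_nonneg _
  linarith

end few

end Data

end Pool.Agent.Helper14.Pcf
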