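import Pool.Agent.Helper14.Pcf.Main

/-! # The theorem for graphs -/

set_option autoImplicit false
set_option linter.unusedSectionVars false

namespace Pool.Agent.Helper14.Pcf

open Finset

section

variable {V : Type*} [Fintype V] [DecidableEq V] (G : SimpleGraph V) [DecidableRel G.Adj]

/-- The greedy colouring. -/
theorem exists_greedy (k : ℕ) (hdeg : ∀ v, G.degree v + 1 ≤ k) [Nonempty (Fin k)] :
    ∃ c : V → Fin k, ∀ u v, G.Adj u v → c u ≠ c v := by
  have key : ∀ S : Finset V, ∃ c : V → Fin k, ∀ u ∈ S, ∀ v ∈ S, G.Adj u v → c u ≠ c v := by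
    intro S
    induction S using Finset.induction_on with
    | empty => exact ⟨fun _ => Classical.arbitrary _, by simp⟩
    | insert a S haS ih =>
      obtain ⟨c, hc⟩ := ih
      have h1 : ∃ y : Fin k, y ∉ (G.neighborFinset a).image c := by
        by_contra hcon
        push Not at hcon
        have h2 : (Finset.univ : Finset (Fin k)) ⊆ (G.neighborFinset a).image c :=
          fun y _ => hcon y
        have h3 := Finset.card_le_card h2
        have h4 : ((G.neighborFinset a).image c).card ≤ (G.neighborFinset a).card :=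
          Finset.card_image_le
        rw [SimpleGraph.card_neighborFinset_eq_degree] at h4
        rw [Finset.card_univ, Fintype.card_fin] at h3
        have := hdeg a
        omega
      obtain ⟨y, hy⟩ := h1
      have hy' : ∀ v, G.Adj a v → c v ≠ y := by
        intro v hv hcv
        apply hy
        rw [← hcv]
        exact Finset.mem_image_of_mem c (by simpa using hv)
      refine ⟨Function.update c a y, ?_⟩
      intro u hu v hv huv
      rcases Finset.mem_insert.mp hu with rfl | hu'
      · have hvu : v ≠ u := huv.ne'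
        rw [Function.update_self, Function.update_of_ne hvu]
        exact (hy' v huv).symm
      · by_cases hua : u = a
        · rw [hua] at hu'
          exact absurd hu' haS
        · rw [Function.update_of_ne hua]
          by_cases hva : v = a
          · subst hva
            rw [Function.update_self]
            exact hy' u huv.symm
          · rw [Function.update_of_ne hva]
            rcases Finset.mem_insert.mp hv with h | h
            · exact absurd h hva
            · exact hc u hu' v h huv
  obtain ⟨c, hc⟩ := key Finset.univ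
  exact ⟨c, fun u v h => hc u (Finset.mem_univ _) v (Finset.mem_univ _) h⟩

/-- The constant. -/
noncomputable def C0 : ℝ := 8000 * 10 ^ 10

theorem exists_coloring (Δ : ℕ) (hΔ : 3 ≤ Δ) (hdeg : ∀ v, G.degree v ≤ Δ) :
    ∃ c : V → Fin (Δ + 1), (∀ u v, G.Adj u v → c u ≠ c v) ∧
      ∀ w, C0 * Real.log Δ ≤ G.degree w → ∃ κ, cnt G c w κ = 1 := by
  have hdeg' : ∀ v, G.degree v + 1 ≤ Δ + 1 := fun v => by have := hdeg v; omega
  obtain ⟨c, hc⟩ := exists_greedy G (Δ + 1) hdeg'
  obtain ⟨f, hf1, hf2⟩ := exists_escape G c hc hdeg'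
  by_cases hex : ∃ w, C0 * Real.log Δ ≤ G.degree w
  · obtain ⟨w₀, hw₀⟩ := hex
    set m : ℕ := ⌈Real.log Δ⌉₊ with hm
    have hΔR : (3 : ℝ) ≤ Δ := by exact_mod_cast hΔ
    have hΔpos : (0 : ℝ) < Δ := by linarith
    have hlog : 1 ≤ Real.log Δ := by
      rw [Real.le_log_iff_exp_le hΔpos]
      have := Real.exp_one_lt_d9
      linarith
    have hm1 : Real.log Δ ≤ m := Nat.le_ceil _
    have hm2 : (m : ℝ) < Real.log Δ + 1 := Nat.ceil_lt_add_one (by linarith)
    have hm3 : 1 ≤ m := by
      have : (1 : ℝ) ≤ m := hlog.trans hm1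
      exact_mod_cast this
    have hexp : (Δ : ℝ) ≤ Real.exp m := by
      rw [← Real.log_le_iff_le_exp hΔpos]
      exact hm1
    have hk : ((Δ + 1 : ℕ) : ℝ) ≤ 2 * Real.exp m := by
      push_cast
      linarith
    have hthr : ∀ w, C0 * Real.log Δ ≤ G.degree w → 4000 * 10 ^ 10 * m ≤ G.degree w := by
      intro w hw
      have h1 : (4000 * 10 ^ 10 * m : ℝ) ≤ G.degree w := by
        refine le_trans ?_ hw
        unfold C0
        nlinarith
      exact_mod_cast h1
    have hbig : 4000 * 10 ^ 10 * m ≤ Δ + 1 := by
      have h1 := hthr w₀ hw₀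
      have h2 := hdeg w₀
      omega
    obtain ⟨c', h1, h2⟩ := Data.main_aux ⟨c, f, hc, hf1, hf2, hdeg'⟩ (10 ^ 10) m rfl hm3 hk hbig
    exact ⟨c', h1, fun w hw => h2 w (hthr w hw)⟩
  · push Not at hex
    exact ⟨c, hc, fun w hw => absurd hw (not_le.mpr (hex w))⟩

end

end Pool.Agent.Helper14.Pcf
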