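import Pool.Agent.Helper14.Pcf.Lll

/-! # The local lemma for four families with constant weights -/

set_option autoImplicit false
set_option linter.unusedSectionVars false

namespace Pool.Agent.Helper14.Pcf

open Finset Pool.Agent.Helper14.Sq

section

variable {V A : Type*} [Fintype V] [DecidableEq V] [Fintype A] [DecidableEq A]

theorem sum_ite_const {ι : Type*} [DecidableEq ι] (T : ι → Finset V) (I : Finset ι) (x : ℝ)
    (v : V) : ∑ i ∈ I, (if v ∈ T i then x else 0) =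
      ((I.filter fun i => v ∈ T i).card : ℝ) * x := by
  rw [← Finset.sum_filter, Finset.sum_const, nsmul_eq_mul]

theorem lll_four [Nonempty A] {ι₁ ι₂ ι₃ ι₄ : Type*} [DecidableEq ι₁] [DecidableEq ι₂]
    [DecidableEq ι₃] [DecidableEq ι₄] (μ : ℝ)
    (E₁ : ι₁ → Finset (V → A)) (T₁ : ι₁ → Finset V) (I₁ : Finset ι₁) (x₁ : ℝ)
    (E₂ : ι₂ → Finset (V → A)) (T₂ : ι₂ → Finset V) (I₂ : Finset ι₂) (x₂ : ℝ)
    (E₃ : ι₃ → Finset (V → A)) (T₃ : ι₃ → Finset V) (I₃ : Finset ι₃) (x₃ : ℝ)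
    (E₄ : ι₄ → Finset (V → A)) (T₄ : ι₄ → Finset V) (I₄ : Finset ι₄) (x₄ : ℝ)
    (hT₁ : ∀ i ∈ I₁, DependsOn' (E₁ i) (T₁ i)) (hT₂ : ∀ i ∈ I₂, DependsOn' (E₂ i) (T₂ i))
    (hT₃ : ∀ i ∈ I₃, DependsOn' (E₃ i) (T₃ i)) (hT₄ : ∀ i ∈ I₄, DependsOn' (E₄ i) (T₄ i))
    (h0₁ : 0 ≤ x₁) (h0₂ : 0 ≤ x₂) (h0₃ : 0 ≤ x₃) (h0₄ : 0 ≤ x₄)
    (h1₁ : x₁ ≤ 1 / 2) (h1₂ : x₂ ≤ 1 / 2) (h1₃ : x₃ ≤ 1 / 2) (h1₄ : x₄ ≤ 1 / 2)
    (hE₁ : ∀ i ∈ I₁, ((E₁ i).card : ℝ) * Real.exp (2 * μ * (T₁ i).card) ≤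
      x₁ * (Fintype.card (V → A) : ℝ))
    (hE₂ : ∀ i ∈ I₂, ((E₂ i).card : ℝ) * Real.exp (2 * μ * (T₂ i).card) ≤
      x₂ * (Fintype.card (V → A) : ℝ))
    (hE₃ : ∀ i ∈ I₃, ((E₃ i).card : ℝ) * Real.exp (2 * μ * (T₃ i).card) ≤
      x₃ * (Fintype.card (V → A) : ℝ))
    (hE₄ : ∀ i ∈ I₄, ((E₄ i).card : ℝ) * Real.exp (2 * μ * (T₄ i).card) ≤
      x₄ * (Fintype.card (V → A) : ℝ))
    (hμ : ∀ v : V, ((I₁.filter fun i => v ∈ T₁ i).card : ℝ) * x₁ +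
      (((I₂.filter fun i => v ∈ T₂ i).card : ℝ) * x₂ +
      (((I₃.filter fun i => v ∈ T₃ i).card : ℝ) * x₃ +
      ((I₄.filter fun i => v ∈ T₄ i).card : ℝ) * x₄)) ≤ μ) :
    ∃ a : V → A, (∀ i ∈ I₁, a ∉ E₁ i) ∧ (∀ i ∈ I₂, a ∉ E₂ i) ∧ (∀ i ∈ I₃, a ∉ E₃ i) ∧
      (∀ i ∈ I₄, a ∉ E₄ i) := by
  have key := lll_weights (A := A) (Sum.elim E₁ (Sum.elim E₂ (Sum.elim E₃ E₄)))
    (Sum.elim T₁ (Sum.elim T₂ (Sum.elim T₃ T₄)))
    (I₁.disjSum (I₂.disjSum (I₃.disjSum I₄)))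
    (by
      rintro (i | i | i | i) hi
      · exact hT₁ i (by simpa using hi)
      · exact hT₂ i (by simpa using hi)
      · exact hT₃ i (by simpa using hi)
      · exact hT₄ i (by simpa using hi))
    (Sum.elim (fun _ => x₁) (Sum.elim (fun _ => x₂) (Sum.elim (fun _ => x₃) (fun _ => x₄))))
    (by rintro (i | i | i | i) _ <;> simp [h0₁, h0₂, h0₃, h0₄])
    (by
      rintro (i | i | i | i) _
      · exact h1₁
      · exact h1₂
      · exact h1₃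
      · exact h1₄)
    μ
    (by
      intro v
      rw [Finset.sum_disjSum, Finset.sum_disjSum, Finset.sum_disjSum]
      have h := hμ v
      rw [← sum_ite_const, ← sum_ite_const, ← sum_ite_const, ← sum_ite_const] at h
      exact h)
    (by
      rintro (i | i | i | i) hi
      · exact hE₁ i (by simpa using hi)
      · exact hE₂ i (by simpa using hi)
      · exact hE₃ i (by simpa using hi)
      · exact hE₄ i (by simpa using hi))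
  obtain ⟨a, ha⟩ := key
  refine ⟨a, fun i hi => ?_, fun i hi => ?_, fun i hi => ?_, fun i hi => ?_⟩
  · exact ha (Sum.inl i) (by simpa using hi)
  · exact ha (Sum.inr (Sum.inl i)) (by simpa using hi)
  · exact ha (Sum.inr (Sum.inr (Sum.inl i))) (by simpa using hi)
  · exact ha (Sum.inr (Sum.inr (Sum.inr i))) (by simpa using hi)

end

end Pool.Agent.Helper14.Pcf
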