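import Pool.Agent.Helper14.Sq.Lll

/-! # The general (asymmetric) local lemma on a finite uniform product space `V → A` -/

set_option autoImplicit false

namespace Pool.Agent.Helper14.Pcf

open Finset Pool.Agent.Helper14.Sq

section

variable {V A ι : Type*} [Fintype V] [DecidableEq V] [Fintype A] [DecidableEq A] [DecidableEq ι]

/-- The points avoiding all events in `S`. -/
def avoid (E : ι → Finset (V → A)) (S : Finset ι) : Finset (V → A) :=
  Finset.univ.filter fun a => ∀ u ∈ S, a ∉ E u

omit [DecidableEq ι] in
theorem mem_avoid (E : ι → Finset (V → A)) (S : Finset ι) (a : V → A) :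
    a ∈ avoid E S ↔ ∀ u ∈ S, a ∉ E u := by
  simp [avoid]

omit [DecidableEq ι] in
theorem avoid_dependsOn (E : ι → Finset (V → A)) (T : ι → Finset V) (S : Finset ι)
    (hT : ∀ v ∈ S, DependsOn' (E v) (T v)) :
    DependsOn' (avoid E S) (S.biUnion T) := by
  intro a b hab
  rw [mem_avoid, mem_avoid]
  refine forall₂_congr fun u hu => ?_
  rw [hT u hu a b (fun i hi => hab i (Finset.mem_biUnion.mpr ⟨u, hu, hi⟩))]

theorem lll_step (E : ι → Finset (V → A)) (T : ι → Finset V) (I : Finset ι)
    (hT : ∀ i ∈ I, DependsOn' (E i) (T i)) (x : ι → ℝ) (hx0 : ∀ i ∈ I, 0 ≤ x i)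
    (hx1 : ∀ i ∈ I, x i ≤ 1)
    (hE : ∀ i ∈ I, ((E i).card : ℝ) ≤
      x i * (∏ j ∈ I.filter (fun j => j ≠ i ∧ ¬ Disjoint (T i) (T j)), (1 - x j)) *
        (Fintype.card (V → A) : ℝ)) :
    ∀ n : ℕ, ∀ S ⊆ I, S.card = n → ∀ i ∈ I,
      ((E i ∩ avoid E S).card : ℝ) ≤ x i * ((avoid E S).card : ℝ) := by
  intro n
  induction n using Nat.strong_induction_on with
  | _ n ih =>
    intro S hSI hSn i hi
    have hgS0 : (0 : ℝ) ≤ ((avoid E S).card : ℝ) := Nat.cast_nonneg _
    by_cases hvS : i ∈ S
    · have : E i ∩ avoid E S = ∅ := by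
        rw [Finset.eq_empty_iff_forall_notMem]
        intro a ha
        rw [Finset.mem_inter, mem_avoid] at ha
        exact ha.2 i hvS ha.1
      rw [this]
      simp only [Finset.card_empty, Nat.cast_zero]
      exact mul_nonneg (hx0 i hi) hgS0
    · set S1 := S.filter fun u => ¬ Disjoint (T i) (T u) with hS1
      set S2 := S.filter fun u => Disjoint (T i) (T u) with hS2
      have hcardΩ : (0 : ℝ) ≤ (Fintype.card (V → A) : ℝ) := Nat.cast_nonneg _
      have hg20 : (0 : ℝ) ≤ ((avoid E S2).card : ℝ) := Nat.cast_nonneg _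
      have hS2I : S2 ⊆ I := (Finset.filter_subset _ _).trans hSI
      -- independence
      have hind := card_inter_mul (E i) (avoid E S2) (T i) (S2.biUnion T) (hT i hi)
        (avoid_dependsOn E T S2 (fun v hv => hT v (hS2I hv))) (by
          rw [Finset.disjoint_biUnion_right]
          intro u hu
          exact (Finset.mem_filter.mp hu).2)
      set P1 : ℝ := ∏ j ∈ S1, (1 - x j) with hP1
      have hPle : ∏ j ∈ I.filter (fun j => j ≠ i ∧ ¬ Disjoint (T i) (T j)), (1 - x j) ≤ P1 := by
        have hsub : S1 ⊆ I.filter (fun j => j ≠ i ∧ ¬ Disjoint (T i) (T j)) := by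
          intro j hj
          have h1 := Finset.mem_filter.mp hj
          refine Finset.mem_filter.mpr ⟨hSI h1.1, ?_, h1.2⟩
          rintro rfl
          exact hvS h1.1
        rw [← Finset.prod_sdiff hsub]
        have h1 : ∏ j ∈ (I.filter (fun j => j ≠ i ∧ ¬ Disjoint (T i) (T j))) \ S1, (1 - x j) ≤ 1 := by
          apply Finset.prod_le_one
          · intro j hj
            have := hx1 j (Finset.mem_filter.mp (Finset.mem_sdiff.mp hj).1).1
            linarith
          · intro j hj
            have := hx0 j (Finset.mem_filter.mp (Finset.mem_sdiff.mp hj).1).1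
            linarith
        have h2 : 0 ≤ P1 := Finset.prod_nonneg (fun j hj => by
          have := hx1 j (hSI (Finset.mem_filter.mp hj).1)
          linarith)
        calc _ ≤ 1 * P1 := mul_le_mul_of_nonneg_right h1 h2
          _ = P1 := one_mul _
      have hnum : ((E i ∩ avoid E S2).card : ℝ) ≤ x i * P1 * ((avoid E S2).card : ℝ) := by
        rcases hcardΩ.eq_or_lt with h0 | h0
        · have : (avoid E S2).card = 0 := by
            have h1 : (avoid E S2).card ≤ Fintype.card (V → A) := Finset.card_le_univ _
            have h2 : Fintype.card (V → A) = 0 := by exact_mod_cast h0.symm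
            omega
          have h3 : (E i ∩ avoid E S2).card = 0 := by
            have : (E i ∩ avoid E S2).card ≤ (avoid E S2).card :=
              Finset.card_le_card Finset.inter_subset_right
            omega
          rw [this, h3]
          simp
        · have h1 := hE i hi
          have h1' : ((E i).card : ℝ) ≤ x i * P1 * (Fintype.card (V → A) : ℝ) := by
            refine h1.trans ?_
            apply mul_le_mul_of_nonneg_right _ h0.le
            exact mul_le_mul_of_nonneg_left hPle (hx0 i hi)
          have h2 : ((E i ∩ avoid E S2).card : ℝ) * (Fintype.card (V → A) : ℝ) ≤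
              (x i * P1 * ((avoid E S2).card : ℝ)) * (Fintype.card (V → A) : ℝ) := by
            rw [hind]
            calc ((E i).card : ℝ) * ((avoid E S2).card : ℝ) ≤
                (x i * P1 * (Fintype.card (V → A) : ℝ)) * ((avoid E S2).card : ℝ) :=
                  mul_le_mul_of_nonneg_right h1' hg20
              _ = _ := by ring
          exact le_of_mul_le_mul_right h2 h0
      have hnum' : ((E i ∩ avoid E S).card : ℝ) ≤ ((E i ∩ avoid E S2).card : ℝ) := by
        have : E i ∩ avoid E S ⊆ E i ∩ avoid E S2 := by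
          intro a ha
          rw [Finset.mem_inter, mem_avoid] at ha ⊢
          exact ⟨ha.1, fun u hu => ha.2 u (Finset.mem_filter.mp hu).1⟩
        exact_mod_cast Finset.card_le_card this
      -- denominator
      have hden : ∀ R : Finset ι, R ⊆ S1 →
          (∏ j ∈ R, (1 - x j)) * ((avoid E S2).card : ℝ) ≤ ((avoid E (S2 ∪ R)).card : ℝ) := by
        intro R
        induction R using Finset.induction_on with
        | empty =>
          intro _
          simp
        | insert j R hjR ihR =>
          intro hsub
          have hRS : R ⊆ S1 := (Finset.subset_insert _ _).trans hsub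
          have hjS1 : j ∈ S1 := hsub (Finset.mem_insert_self _ _)
          have hjI : j ∈ I := hSI (Finset.mem_filter.mp hjS1).1
          have h1 := ihR hRS
          have hjn : j ∉ S2 ∪ R := by
            intro h
            rcases Finset.mem_union.mp h with h | h
            · exact (Finset.mem_filter.mp hjS1).2 (Finset.mem_filter.mp h).2
            · exact hjR h
          have hsubS : S2 ∪ R ⊆ S := by
            apply Finset.union_subset (Finset.filter_subset _ _)
            exact hRS.trans (Finset.filter_subset _ _)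
          have hlt : (S2 ∪ R).card < n := by
            rw [← hSn]
            apply Finset.card_lt_card
            refine ⟨hsubS, fun h => hjn (h (Finset.mem_filter.mp hjS1).1)⟩
          have h2 := ih _ hlt (S2 ∪ R) (hsubS.trans hSI) rfl j hjI
          have h3 : avoid E (S2 ∪ R) ⊆ avoid E (S2 ∪ insert j R) ∪ (E j ∩ avoid E (S2 ∪ R)) := by
            intro a ha
            by_cases hav : a ∈ E j
            · exact Finset.mem_union_right _ (Finset.mem_inter.mpr ⟨hav, ha⟩)
            · apply Finset.mem_union_left
              rw [mem_avoid] at ha ⊢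
              intro u hu
              rcases Finset.mem_union.mp hu with h | h
              · exact ha u (Finset.mem_union_left _ h)
              · rcases Finset.mem_insert.mp h with h | h
                · rw [h]; exact hav
                · exact ha u (Finset.mem_union_right _ h)
          have h4 : ((avoid E (S2 ∪ R)).card : ℝ) ≤ ((avoid E (S2 ∪ insert j R)).card : ℝ) +
              ((E j ∩ avoid E (S2 ∪ R)).card : ℝ) := by
            exact_mod_cast (Finset.card_le_card h3).trans (Finset.card_union_le _ _)
          rw [Finset.prod_insert hjR]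
          have h5 : 0 ≤ 1 - x j := by have := hx1 j hjI; linarith
          calc (1 - x j) * (∏ j ∈ R, (1 - x j)) * ((avoid E S2).card : ℝ)
              = (1 - x j) * ((∏ j ∈ R, (1 - x j)) * ((avoid E S2).card : ℝ)) := by ring
            _ ≤ (1 - x j) * ((avoid E (S2 ∪ R)).card : ℝ) := mul_le_mul_of_nonneg_left h1 h5
            _ ≤ _ := by linarith
      have hden1 := hden S1 (Finset.Subset.refl _)
      have hSeq : S2 ∪ S1 = S := by
        ext j
        simp only [hS1, hS2, Finset.mem_union, Finset.mem_filter]
        tauto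
      rw [hSeq, ← hP1] at hden1
      calc ((E i ∩ avoid E S).card : ℝ) ≤ ((E i ∩ avoid E S2).card : ℝ) := hnum'
        _ ≤ x i * P1 * ((avoid E S2).card : ℝ) := hnum
        _ = x i * (P1 * ((avoid E S2).card : ℝ)) := by ring
        _ ≤ x i * ((avoid E S).card : ℝ) := mul_le_mul_of_nonneg_left hden1 (hx0 i hi)

/-- The general local lemma. -/
theorem lll_general [Nonempty A] (E : ι → Finset (V → A)) (T : ι → Finset V) (I : Finset ι)
    (hT : ∀ i ∈ I, DependsOn' (E i) (T i)) (x : ι → ℝ) (hx0 : ∀ i ∈ I, 0 ≤ x i)
    (hx1 : ∀ i ∈ I, x i < 1)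
    (hE : ∀ i ∈ I, ((E i).card : ℝ) ≤
      x i * (∏ j ∈ I.filter (fun j => j ≠ i ∧ ¬ Disjoint (T i) (T j)), (1 - x j)) *
        (Fintype.card (V → A) : ℝ)) :
    ∃ a : V → A, ∀ i ∈ I, a ∉ E i := by
  have key : ∀ S : Finset ι, S ⊆ I → 0 < ((avoid E S).card : ℝ) := by
    intro S
    induction S using Finset.induction_on with
    | empty =>
      intro _
      have : avoid E ∅ = Finset.univ := by simp [avoid]
      rw [this, Finset.card_univ]
      exact_mod_cast Fintype.card_pos
    | insert v S hvS ih =>
      intro hsub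
      have hSI : S ⊆ I := (Finset.subset_insert _ _).trans hsub
      have hvI := hsub (Finset.mem_insert_self _ _)
      have h1 := ih hSI
      have h2 := lll_step E T I hT x hx0 (fun i hi => (hx1 i hi).le) hE S.card S hSI rfl v hvI
      have h3 : avoid E S ⊆ avoid E (insert v S) ∪ (E v ∩ avoid E S) := by
        intro a ha
        by_cases hav : a ∈ E v
        · exact Finset.mem_union_right _ (Finset.mem_inter.mpr ⟨hav, ha⟩)
        · apply Finset.mem_union_left
          rw [mem_avoid] at ha ⊢
          intro u hu
          rcases Finset.mem_insert.mp hu with h | h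
          · rw [h]; exact hav
          · exact ha u h
      have h4 : ((avoid E S).card : ℝ) ≤ ((avoid E (insert v S)).card : ℝ) +
          ((E v ∩ avoid E S).card : ℝ) := by
        exact_mod_cast (Finset.card_le_card h3).trans (Finset.card_union_le _ _)
      have h5 := hx1 v hvI
      nlinarith
  have := key I (Finset.Subset.refl _)
  have hne : (avoid E I).Nonempty := by
    rw [← Finset.card_pos]
    exact_mod_cast this
  obtain ⟨a, ha⟩ := hne
  exact ⟨a, (mem_avoid E I a).mp ha⟩

theorem one_sub_ge_exp {x : ℝ} (h0 : 0 ≤ x) (h1 : x ≤ 1 / 2) : Real.exp (-(2 * x)) ≤ 1 - x := by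
  have h2 := Real.add_one_le_exp (2 * x)
  have h3 : 0 < Real.exp (2 * x) := Real.exp_pos _
  rw [Real.exp_neg, inv_le_comm₀ h3 (by linarith)]
  refine le_trans ?_ h2
  rw [inv_le_iff_one_le_mul₀ (by linarith)]
  nlinarith

/-- The local lemma with weights and a bound for the weight at every variable. -/
theorem lll_weights [Nonempty A] (E : ι → Finset (V → A)) (T : ι → Finset V) (I : Finset ι)
    (hT : ∀ i ∈ I, DependsOn' (E i) (T i)) (x : ι → ℝ) (hx0 : ∀ i ∈ I, 0 ≤ x i)
    (hx1 : ∀ i ∈ I, x i ≤ 1 / 2) (μ : ℝ)
    (hμ : ∀ v : V, ∑ i ∈ I, (if v ∈ T i then x i else 0) ≤ μ)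
    (hE : ∀ i ∈ I, ((E i).card : ℝ) * Real.exp (2 * μ * (T i).card) ≤
      x i * (Fintype.card (V → A) : ℝ)) :
    ∃ a : V → A, ∀ i ∈ I, a ∉ E i := by
  apply lll_general E T I hT x hx0 (fun i hi => lt_of_le_of_lt (hx1 i hi) (by norm_num))
  intro i hi
  set Γ := I.filter (fun j => j ≠ i ∧ ¬ Disjoint (T i) (T j)) with hΓ
  have hsum : ∑ j ∈ Γ, x j ≤ μ * (T i).card := by
    calc ∑ j ∈ Γ, x j ≤ ∑ j ∈ Γ, ∑ v ∈ T i, (if v ∈ T j then x j else 0) := by
          apply Finset.sum_le_sum
          intro j hj
          have h1 := (Finset.mem_filter.mp hj)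
          obtain ⟨v, hv1, hv2⟩ := Finset.not_disjoint_iff.mp h1.2.2
          have h2 : x j = (if v ∈ T j then x j else 0) := by simp [hv2]
          rw [h2]
          have h3 : ∀ u ∈ T i, 0 ≤ (if u ∈ T j then x j else 0) := by
            intro u _
            split_ifs
            · exact hx0 j h1.1
            · exact le_refl _
          have := Finset.single_le_sum h3 hv1
          simpa [hv2] using this
      _ ≤ ∑ j ∈ I, ∑ v ∈ T i, (if v ∈ T j then x j else 0) := by
          apply Finset.sum_le_sum_of_subset_of_nonneg (Finset.filter_subset _ _)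
          intro j hj _
          apply Finset.sum_nonneg
          intro u _
          split_ifs
          · exact hx0 j hj
          · exact le_refl _
      _ = ∑ v ∈ T i, ∑ j ∈ I, (if v ∈ T j then x j else 0) := Finset.sum_comm
      _ ≤ ∑ _v ∈ T i, μ := Finset.sum_le_sum (fun v _ => hμ v)
      _ = μ * (T i).card := by rw [Finset.sum_const, nsmul_eq_mul]; ring
  have hprod : Real.exp (-(2 * (μ * (T i).card))) ≤ ∏ j ∈ Γ, (1 - x j) := by
    calc Real.exp (-(2 * (μ * (T i).card))) ≤ Real.exp (∑ j ∈ Γ, -(2 * x j)) := by
          apply Real.exp_le_exp.mpr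
          rw [Finset.sum_neg_distrib, ← Finset.mul_sum]
          linarith
      _ = ∏ j ∈ Γ, Real.exp (-(2 * x j)) := Real.exp_sum _ _
      _ ≤ ∏ j ∈ Γ, (1 - x j) := by
          apply Finset.prod_le_prod
          · intro j _; exact (Real.exp_pos _).le
          · intro j hj
            have hjI := (Finset.mem_filter.mp hj).1
            exact one_sub_ge_exp (hx0 j hjI) (hx1 j hjI)
  have h1 := hE i hi
  have hc : (0 : ℝ) ≤ (Fintype.card (V → A) : ℝ) := Nat.cast_nonneg _
  have hexp : Real.exp (2 * μ * (T i).card) * Real.exp (-(2 * (μ * (T i).card))) = 1 := by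
    rw [← Real.exp_add]
    rw [show 2 * μ * ((T i).card : ℝ) + -(2 * (μ * (T i).card)) = 0 by ring, Real.exp_zero]
  calc ((E i).card : ℝ) = ((E i).card : ℝ) * Real.exp (2 * μ * (T i).card) *
        Real.exp (-(2 * (μ * (T i).card))) := by rw [mul_assoc, hexp, mul_one]
    _ ≤ (x i * (Fintype.card (V → A) : ℝ)) * Real.exp (-(2 * (μ * (T i).card))) :=
        mul_le_mul_of_nonneg_right h1 (Real.exp_pos _).le
    _ = x i * Real.exp (-(2 * (μ * (T i).card))) * (Fintype.card (V → A) : ℝ) := by ring
    _ ≤ x i * (∏ j ∈ Γ, (1 - x j)) * (Fintype.card (V → A) : ℝ) := by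
        apply mul_le_mul_of_nonneg_right _ hc
        exact mul_le_mul_of_nonneg_left hprod (hx0 i hi)

end

end Pool.Agent.Helper14.Pcf
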