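import Pool.Agent.Helper14.Pcf.Final

/-!
# The `Δ+1` bound for proper conflict-free colouring: all vertices of degree at least `C log Δ`

Partial answer to Q1 of MP_f0af69_co.
-/

set_option autoImplicit false

namespace Pool.Agent.Results.MP_f0af69_co.LogDegree

/-- There is a constant `C` such that every finite graph with maximum degree `Δ ≥ 3` has a proper
colouring with `Δ+1` colours in which every vertex of degree at least `C log Δ` has a colour
occurring exactly once among its neighbours. In particular, if all degrees are at least
`C log Δ`, this is a proper conflict-free colouring with `Δ+1` colours. -/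
theorem result :
    ∃ C : ℝ, 0 < C ∧
      ∀ (V : Type) [Fintype V] [DecidableEq V] (G : SimpleGraph V) [DecidableRel G.Adj],
        3 ≤ G.maxDegree →
        ∃ c : V → Fin (G.maxDegree + 1),
          (∀ u v : V, G.Adj u v → c u ≠ c v) ∧
          ∀ v : V, C * Real.log G.maxDegree ≤ G.degree v →
            ∃ k : Fin (G.maxDegree + 1),
              (Finset.filter (fun w => c w = k) (G.neighborFinset v)).card = 1 := by
  refine ⟨Pool.Agent.Helper14.Pcf.C0, by unfold Pool.Agent.Helper14.Pcf.C0; norm_num, ?_⟩
  intro V _ _ G _ h3
  exact Pool.Agent.Helper14.Pcf.exists_coloring G G.maxDegree h3 (fun v => G.degree_le_maxDegree v)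

end Pool.Agent.Results.MP_f0af69_co.LogDegree
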