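import Pool.Agent.Helper14.Pcf.Fam
import Pool.Agent.Helper14.Pcf.Four

/-! # The main theorem -/

set_option autoImplicit false
set_option linter.unusedSectionVars false

namespace Pool.Agent.Helper14.Pcf

open Finset Pool.Agent.Helper14.Sq

section numeric

theorem exp_neg_eleven : (1 / 60000 : ℝ) ≤ Real.exp (-11) := by
  rw [Real.exp_neg, one_div]
  apply inv_anti₀ (Real.exp_pos _)
  have h1 : Real.exp 11 = Real.exp 1 ^ 11 := by
    rw [← Real.exp_nat_mul]
    norm_num
  rw [h1]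
  have h2 := Real.exp_one_lt_d9.le
  calc Real.exp 1 ^ 11 ≤ (2.7182818286 : ℝ) ^ 11 := by
        apply pow_le_pow_left₀ (Real.exp_pos _).le h2
    _ ≤ 60000 := by norm_num

theorem exp_neg_mul_nat (a : ℝ) (m : ℕ) : Real.exp (-(a * m)) = Real.exp (-a) ^ m := by
  rw [← Real.exp_nat_mul]
  congr 1
  ring

theorem weights_ok (K m k : ℕ) (hKR : (K : ℝ) = 10 ^ 10) (hm : 1 ≤ m)
    (hk : (k : ℝ) ≤ 2 * Real.exp m) (hbig : 4000 * K * m ≤ k) (hk0 : 0 < k) (a b d c : ℕ)
    (hA : a ≤ k * (12 * k)) (hB : b ≤ k * k * ((1000 * K * m * k * (8 * k)).choose m))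
    (hD : d ≤ k * k * ((4 * m * (8 * k)).choose m)) (hC : c ≤ k) :
    (a : ℝ) * (2 / ((K : ℝ) * k)) ^ 2 + ((b : ℝ) * (2 / ((K : ℝ) * k)) ^ (2 * m) +
      ((d : ℝ) * (2 / ((K : ℝ) * k)) ^ m + (c : ℝ) * Real.exp (-(11 * m)))) ≤
      1 / (100 * K) := by
  have hkR : (0 : ℝ) < k := by exact_mod_cast hk0
  have hmR : (1 : ℝ) ≤ m := by exact_mod_cast hm
  have hKpos : (0 : ℝ) < K := by rw [hKR]; norm_num
  set y : ℝ := 2 / ((K : ℝ) * k) with hy
  set ξ : ℝ := Real.exp (-(11 * m)) with hξ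
  have hy0 : 0 ≤ y := by positivity
  have hξ0 : 0 ≤ ξ := (Real.exp_pos _).le
  have hem : Real.exp (-(m : ℝ)) * (2000 * K) ≤ 1 := by
    have h1 : (4000 * K * m : ℝ) ≤ k := by exact_mod_cast hbig
    have h2 : (4000 * K : ℝ) ≤ 2 * Real.exp m := by
      have h3 : (4000 * K : ℝ) ≤ 4000 * K * m := by
        have : (0 : ℝ) ≤ 4000 * K := by positivity
        nlinarith
      linarith
    have h4 : Real.exp (-(m : ℝ)) * Real.exp m = 1 := by
      rw [← Real.exp_add, neg_add_cancel, Real.exp_zero]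
    have h5 : 0 < Real.exp (-(m : ℝ)) := Real.exp_pos _
    nlinarith
  have hA' : (a : ℝ) * y ^ 2 ≤ 48 / (K : ℝ) ^ 2 := by
    have h1 : (a : ℝ) ≤ 12 * (k : ℝ) ^ 2 := by
      have : (a : ℝ) ≤ ((k * (12 * k) : ℕ) : ℝ) := by exact_mod_cast hA
      push_cast at this
      linarith
    have h2 : (12 * (k : ℝ) ^ 2) * y ^ 2 = 48 / (K : ℝ) ^ 2 := by
      rw [hy]
      field_simp
      ring
    rw [← h2]
    exact mul_le_mul_of_nonneg_right h1 (by positivity)
  have hk2 : (k : ℝ) * k ≤ 4 * (Real.exp m * Real.exp m) := by nlinarith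
  have he1 : Real.exp 1 ≤ 2.7182818286 := Real.exp_one_lt_d9.le
  have he11 := exp_neg_eleven
  have hxi : Real.exp (-(11 * (m : ℝ))) = Real.exp (-11) ^ m := exp_neg_mul_nat 11 m
  have hB' : (b : ℝ) * y ^ (2 * m) ≤ 4 * (Real.exp m * Real.exp m) * ξ := by
    have h1 : (b : ℝ) ≤ (k : ℝ) * k * ((1000 * K * m * k * (8 * k)).choose m : ℝ) := by
      exact_mod_cast hB
    have h2 := choose_bound (1000 * K * m * k * (8 * k)) m hm (y ^ 2) (by positivity)
    have h3 : Real.exp 1 * ((1000 * K * m * k * (8 * k) : ℕ) : ℝ) * y ^ 2 / m =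
        Real.exp 1 * 32000 / K := by
      rw [hy]
      push_cast
      field_simp
      ring
    rw [h3] at h2
    have h4 : Real.exp 1 * 32000 / K ≤ Real.exp (-11) := by
      refine le_trans ?_ he11
      rw [hKR, div_le_div_iff₀ (by norm_num) (by norm_num)]
      linarith
    have h5 : (Real.exp 1 * 32000 / K) ^ m ≤ ξ := by
      rw [hξ, hxi]
      exact pow_le_pow_left₀ (by positivity) h4 m
    have h6 : ((1000 * K * m * k * (8 * k)).choose m : ℝ) * y ^ (2 * m) ≤ ξ := by
      rw [pow_mul]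
      exact h2.trans h5
    calc (b : ℝ) * y ^ (2 * m)
        ≤ (k : ℝ) * k * ((1000 * K * m * k * (8 * k)).choose m : ℝ) * y ^ (2 * m) := by
          gcongr
      _ = (k : ℝ) * k * (((1000 * K * m * k * (8 * k)).choose m : ℝ) * y ^ (2 * m)) := by
          ring
      _ ≤ 4 * (Real.exp m * Real.exp m) * ξ := by gcongr
  have hD' : (d : ℝ) * y ^ m ≤ 4 * (Real.exp m * Real.exp m) * ξ := by
    have h1 : (d : ℝ) ≤ (k : ℝ) * k * ((4 * m * (8 * k)).choose m : ℝ) := by exact_mod_cast hD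
    have h2 := choose_bound (4 * m * (8 * k)) m hm y hy0
    have h3 : Real.exp 1 * ((4 * m * (8 * k) : ℕ) : ℝ) * y / m = Real.exp 1 * 64 / K := by
      rw [hy]
      push_cast
      field_simp
      ring
    rw [h3] at h2
    have h4 : Real.exp 1 * 64 / K ≤ Real.exp (-11) := by
      refine le_trans ?_ he11
      rw [hKR, div_le_div_iff₀ (by norm_num) (by norm_num)]
      linarith
    have h5 : (Real.exp 1 * 64 / K) ^ m ≤ ξ := by
      rw [hξ, hxi]
      exact pow_le_pow_left₀ (by positivity) h4 m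
    have h6 : ((4 * m * (8 * k)).choose m : ℝ) * y ^ m ≤ ξ := h2.trans h5
    calc (d : ℝ) * y ^ m ≤ (k : ℝ) * k * ((4 * m * (8 * k)).choose m : ℝ) * y ^ m := by
          gcongr
      _ = (k : ℝ) * k * (((4 * m * (8 * k)).choose m : ℝ) * y ^ m) := by
          ring
      _ ≤ 4 * (Real.exp m * Real.exp m) * ξ := by gcongr
  have hC' : (c : ℝ) * ξ ≤ 2 * Real.exp m * ξ := by
    have h1 : (c : ℝ) ≤ k := by exact_mod_cast hC
    exact mul_le_mul_of_nonneg_right (h1.trans hk) hξ0
  -- e^{2m} ξ = e^{-m} e^{-8 m}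
  have hfin : Real.exp m * Real.exp m * ξ ≤ Real.exp (-(m : ℝ)) * (1 / 60) := by
    have h1 : Real.exp m * Real.exp m * ξ = Real.exp (-(m : ℝ)) * Real.exp (-(8 * m)) := by
      rw [hξ, ← Real.exp_add, ← Real.exp_add, ← Real.exp_add]
      congr 1
      ring
    rw [h1]
    have h2 : Real.exp (-(8 * (m : ℝ))) ≤ 1 / 60 := by
      have h3 : Real.exp (-(8 * (m : ℝ))) ≤ Real.exp (-8) := by
        apply Real.exp_le_exp.mpr
        linarith
      have h4 : Real.exp (-8) ≤ 1 / 60 := by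
        rw [Real.exp_neg, inv_le_comm₀ (Real.exp_pos _) (by norm_num)]
        have h5 : Real.exp 8 = Real.exp 1 ^ 8 := by
          rw [← Real.exp_nat_mul]
          norm_num
        rw [h5]
        have h6 : (2 : ℝ) ≤ Real.exp 1 := by
          have := Real.add_one_le_exp (1 : ℝ)
          linarith
        calc ((1 / 60 : ℝ))⁻¹ ≤ 2 ^ 8 := by norm_num
          _ ≤ Real.exp 1 ^ 8 := pow_le_pow_left₀ (by norm_num) h6 8
      exact h3.trans h4
    exact mul_le_mul_of_nonneg_left h2 (Real.exp_pos _).le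
  have hexp1 : (1 : ℝ) ≤ Real.exp m := by
    have := Real.add_one_le_exp (m : ℝ)
    linarith
  have hfin2 : Real.exp m * ξ ≤ Real.exp m * Real.exp m * ξ := by
    calc Real.exp m * ξ = 1 * (Real.exp m * ξ) := (one_mul _).symm
      _ ≤ Real.exp m * (Real.exp m * ξ) := by gcongr
      _ = _ := by ring
  have h9 : Real.exp (-(m : ℝ)) ≤ 1 / (2000 * K) := by
    rw [le_div_iff₀ (by positivity)]
    exact hem
  have h10 : (48 : ℝ) / (K : ℝ) ^ 2 + 10 * (1 / (2000 * K) * (1 / 60)) ≤ 1 / (100 * K) := by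
    rw [hKR]
    norm_num
  have h11 : Real.exp (-(m : ℝ)) * (1 / 60) ≤ 1 / (2000 * K) * (1 / 60) := by gcongr
  have h12 : 4 * (Real.exp m * Real.exp m) * ξ = 4 * (Real.exp m * Real.exp m * ξ) := by ring
  have h13 : 2 * Real.exp m * ξ = 2 * (Real.exp m * ξ) := by ring
  rw [h12] at hB' hD'
  rw [h13] at hC'
  linarith

end numeric

variable {V : Type*} [Fintype V] [DecidableEq V] {G : SimpleGraph V} [DecidableRel G.Adj] {k : ℕ}

/-- The exponential of twice the weight bound. -/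
theorem cyl_weight {K : ℕ} (z0 : Fin K) [Nonempty (Fin k)] (τ : Finset (V × Fin k)) (n : ℕ)
    (hn : (dom τ).card = n) (μ : ℝ) (hμ : Real.exp (2 * μ) ≤ 2) (hK : 0 < K) :
    ((cyl z0 τ).card : ℝ) * Real.exp (2 * μ * (dom τ).card) ≤
      (2 / ((K : ℝ) * k)) ^ n * (Fintype.card (V → Fin K × Fin k) : ℝ) := by
  have h1 := cyl_card z0 τ
  rw [hn] at h1 ⊢
  have hK' : (0 : ℝ) < K := by exact_mod_cast hK
  have hk' : (0 : ℝ) < k := by
    have : 0 < k := Fin.pos (Classical.arbitrary (Fin k))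
    exact_mod_cast this
  have hKk : (0 : ℝ) < (K : ℝ) * k := by positivity
  have h2 : Real.exp (2 * μ * (n : ℝ)) ≤ 2 ^ n := by
    rw [mul_comm, Real.exp_nat_mul]
    exact pow_le_pow_left₀ (Real.exp_pos _).le hμ n
  have h3 : (0 : ℝ) ≤ ((cyl z0 τ).card : ℝ) := Nat.cast_nonneg _
  rw [div_pow, div_mul_eq_mul_div, le_div_iff₀ (by positivity)]
  calc ((cyl z0 τ).card : ℝ) * Real.exp (2 * μ * (n : ℝ)) * ((K : ℝ) * k) ^ n
      ≤ ((cyl z0 τ).card : ℝ) * 2 ^ n * ((K : ℝ) * k) ^ n := by gcongr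
    _ = 2 ^ n * (((cyl z0 τ).card : ℝ) * ((K : ℝ) * k) ^ n) := by ring
    _ ≤ 2 ^ n * (Fintype.card (V → Fin K × Fin k) : ℝ) := by gcongr

namespace Data

theorem main_aux (D : Data G k) (K m : ℕ) (hK : K = 10 ^ 10) (hm : 1 ≤ m) (hk : (k : ℝ) ≤ 2 * Real.exp m)
    (hbig : 4000 * K * m ≤ k) [Nonempty (Fin k)] :
    ∃ c' : V → Fin k, (∀ u v, G.Adj u v → c' u ≠ c' v) ∧
      ∀ w, 4000 * K * m ≤ G.degree w → ∃ κ, cnt G c' w κ = 1 := by
  classical
  have hK0 : 0 < K := by rw [hK]; norm_num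
  have hKR : (K : ℝ) = 10 ^ 10 := by rw [hK]; norm_num
  obtain ⟨z0⟩ : Nonempty (Fin K) := ⟨⟨0, hK0⟩⟩
  have hne : Nonempty (Fin K × Fin k) := ⟨(z0, Classical.arbitrary _)⟩
  have hk0 : 0 < k := Fin.pos (Classical.arbitrary (Fin k))
  have hkR : (0 : ℝ) < k := by exact_mod_cast hk0
  have hmR : (1 : ℝ) ≤ m := by exact_mod_cast hm
  -- targets and robust vertices
  set Wt := Finset.univ.filter fun w => 4000 * K * m ≤ G.degree w ∧ (D.uniq w).card < 4 * m
    with hWt
  set Wr := Finset.univ.filter fun w => 4000 * K * m ≤ G.degree w ∧ 4 * m ≤ (D.uniq w).card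
    with hWr
  have hNex : ∀ w, ∃ N : Finset V, w ∈ Wt → (N.card = 1000 * K * m ∧
      ∀ u ∈ N, G.Adj w u ∧ k ≤ 12 * (D.goodVals w u).card) := by
    intro w
    by_cases hw : w ∈ Wt
    · have h1 := (Finset.mem_filter.mp hw).2
      have h2 : 16 * (D.uniq w).card ≤ k := by
        have h3 : 64 * m ≤ 4000 * K * m := Nat.mul_le_mul_right _ (by omega)
        omega
      obtain ⟨N, hN1, hN2⟩ := D.exists_target w h2
      have h3 : 1000 * K * m ≤ N.card := by
        have : 4000 * K * m = 4 * (1000 * K * m) := by ring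
        omega
      obtain ⟨N', hN', hc⟩ := Finset.exists_subset_card_eq h3
      exact ⟨N', fun _ => ⟨hc, fun u hu => hN2 u (hN' hu)⟩⟩
    · exact ⟨∅, fun h => absurd h hw⟩
  choose N hN using hNex
  have hRex : ∀ w, ∃ R : Finset (Fin k), w ∈ Wr → (R.card = 4 * m ∧ ∀ κ ∈ R, D.n w κ = 1) := by
    intro w
    by_cases hw : w ∈ Wr
    · have h1 := (Finset.mem_filter.mp hw).2
      obtain ⟨R, hR, hc⟩ := Finset.exists_subset_card_eq h1.2
      exact ⟨R, fun _ => ⟨hc, fun κ hκ => (Finset.mem_filter.mp (hR hκ)).2⟩⟩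
    · exact ⟨∅, fun h => absurd h hw⟩
  choose R hR using hRex
  -- the parameters
  set μ : ℝ := 1 / (100 * K) with hμdef
  set y : ℝ := 2 / ((K : ℝ) * k) with hy
  set ξ : ℝ := Real.exp (-(11 * m)) with hξ
  have hy0 : 0 ≤ y := by positivity
  have hμ0 : 0 < μ := by rw [hμdef, hKR]; norm_num
  have hexpμ : Real.exp (2 * μ) ≤ 2 := by
    have h1 : 2 * μ ≤ 1 / 2 := by rw [hμdef, hKR]; norm_num
    have h2 := one_sub_ge_exp (x := 1 / 2) (by norm_num) (by norm_num)
    have h3 : Real.exp (2 * μ) ≤ Real.exp (1 / 2) := Real.exp_le_exp.mpr h1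
    have h4 : Real.exp (1 / 2) * Real.exp (1 / 2) = Real.exp 1 := by
      rw [← Real.exp_add]; norm_num
    have h5 := Real.exp_one_lt_d9
    have h6 : Real.exp (1 / 2) ≤ 2 := by
      by_contra hcon
      push Not at hcon
      nlinarith
    exact h3.trans h6
  have hk1 : (1 : ℝ) ≤ k := by exact_mod_cast hk0
  have hy1 : y ≤ 1 / 4 := by
    rw [hy, hKR, div_le_div_iff₀ (by positivity) (by norm_num)]
    nlinarith
  have hym : ∀ n : ℕ, 1 ≤ n → y ^ n ≤ 1 / 2 := by
    intro n hn
    calc y ^ n ≤ y ^ 1 := pow_le_pow_of_le_one hy0 (hy1.trans (by norm_num)) hn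
      _ ≤ 1 / 2 := by rw [pow_one]; exact hy1.trans (by norm_num)
  have hξ0 : 0 ≤ ξ := (Real.exp_pos _).le
  have hξ1 : ξ ≤ 1 / 2 := by
    have h1 : Real.exp (-(11 * m)) ≤ Real.exp (-1) := by
      apply Real.exp_le_exp.mpr
      linarith
    have h2 : Real.exp (-1) ≤ 1 / 2 := by
      rw [Real.exp_neg, inv_le_comm₀ (Real.exp_pos _) (by norm_num)]
      have := Real.add_one_le_exp (1 : ℝ)
      norm_num
      linarith
    exact h1.trans h2
  have key := lll_four (A := Fin K × Fin k) μ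
    (cyl z0) dom D.TA (y ^ 2)
    (cyl z0) dom (Wt.biUnion fun w => D.TB m w (N w)) (y ^ (2 * m))
    (cyl z0) dom (Wr.biUnion fun w => D.TD m w (R w)) (y ^ m)
    (fun w => D.EC z0 m w (N w)) N Wt ξ
    (fun τ _ => cyl_dependsOn z0 τ) (fun τ _ => cyl_dependsOn z0 τ)
    (fun τ _ => cyl_dependsOn z0 τ) (fun w _ => D.EC_dependsOn z0 m w (N w))
    (by positivity) (by positivity) (by positivity) hξ0
    (hym 2 (by norm_num)) (hym (2 * m) (by omega)) (hym m hm) hξ1
    (fun τ hτ => cyl_weight z0 τ 2 (D.dom_TA hτ) μ hexpμ hK0)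
    (fun τ hτ => by
      obtain ⟨w, hw, h⟩ := Finset.mem_biUnion.mp hτ
      exact cyl_weight z0 τ (2 * m) (D.dom_TB h) μ hexpμ hK0)
    (fun τ hτ => by
      obtain ⟨w, hw, h⟩ := Finset.mem_biUnion.mp hτ
      exact cyl_weight z0 τ m (D.dom_TD h) μ hexpμ hK0)
    (fun w hw => by
      have h1 := D.EC_card z0 m w (N w) hK0 (hN w hw).1 (fun u hu => ((hN w hw).2 u hu).2)
      have h2 : Real.exp (2 * μ * ((N w).card : ℝ)) = Real.exp (20 * m) := by
        rw [(hN w hw).1]
        congr 1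
        rw [hμdef]
        push_cast
        have : (K : ℝ) ≠ 0 := by positivity
        field_simp
        ring
      rw [h2]
      have h3 : Real.exp (-(31 * m)) * Real.exp (20 * m) = ξ := by
        rw [← Real.exp_add, hξ]
        congr 1
        ring
      calc ((D.EC z0 m w (N w)).card : ℝ) * Real.exp (20 * m)
          ≤ ((Fintype.card (V → Fin K × Fin k) : ℝ) * Real.exp (-(31 * m))) *
              Real.exp (20 * m) := by gcongr
        _ = ξ * (Fintype.card (V → Fin K × Fin k) : ℝ) := by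
            rw [mul_assoc, h3, mul_comm])
    (by
      intro v
      have hA := D.count_TA v
      have hB : ((Wt.biUnion fun w => D.TB m w (N w)).filter fun τ => v ∈ dom τ).card ≤
          k * k * ((1000 * K * m * k * (8 * k)).choose m) := by
        have hsub : ((Wt.biUnion fun w => D.TB m w (N w)).filter fun τ => v ∈ dom τ) ⊆
            ((nearset G v).filter fun w => w ∈ Wt).biUnion fun w => D.TB m w (N w) := by
          intro τ hτ
          obtain ⟨h1, h2⟩ := Finset.mem_filter.mp hτ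
          obtain ⟨w, hw, h3⟩ := Finset.mem_biUnion.mp h1
          exact Finset.mem_biUnion.mpr ⟨w, Finset.mem_filter.mpr ⟨D.near_TB h3 h2, hw⟩, h3⟩
        refine (Finset.card_le_card hsub).trans ?_
        refine (Finset.card_biUnion_le_card_mul _ _
          ((1000 * K * m * k * (8 * k)).choose m) ?_).trans ?_
        · intro w hw
          have h1 := D.card_TB m w (N w)
          rw [(hN w (Finset.mem_filter.mp hw).2).1] at h1
          exact h1
        · apply Nat.mul_le_mul_right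
          exact (Finset.card_filter_le _ _).trans (card_nearset D.deg v)
      have hD : ((Wr.biUnion fun w => D.TD m w (R w)).filter fun τ => v ∈ dom τ).card ≤
          k * k * ((4 * m * (8 * k)).choose m) := by
        have hsub : ((Wr.biUnion fun w => D.TD m w (R w)).filter fun τ => v ∈ dom τ) ⊆
            ((nearset G v).filter fun w => w ∈ Wr).biUnion fun w => D.TD m w (R w) := by
          intro τ hτ
          obtain ⟨h1, h2⟩ := Finset.mem_filter.mp hτ
          obtain ⟨w, hw, h3⟩ := Finset.mem_biUnion.mp h1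
          exact Finset.mem_biUnion.mpr ⟨w, Finset.mem_filter.mpr ⟨D.near_TD h3 h2, hw⟩, h3⟩
        refine (Finset.card_le_card hsub).trans ?_
        refine (Finset.card_biUnion_le_card_mul _ _ ((4 * m * (8 * k)).choose m) ?_).trans ?_
        · intro w hw
          have h0 := hR w (Finset.mem_filter.mp hw).2
          have h1 := D.card_TD m w (R w) h0.2
          rw [h0.1] at h1
          exact h1
        · apply Nat.mul_le_mul_right
          exact (Finset.card_filter_le _ _).trans (card_nearset D.deg v)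
      have hC : (Wt.filter fun w => v ∈ N w).card ≤ k := by
        have hsub : (Wt.filter fun w => v ∈ N w) ⊆ G.neighborFinset v := by
          intro w hw
          obtain ⟨h1, h2⟩ := Finset.mem_filter.mp hw
          rw [SimpleGraph.mem_neighborFinset]
          exact (((hN w h1).2 v h2).1).symm
        refine (Finset.card_le_card hsub).trans ?_
        rw [SimpleGraph.card_neighborFinset_eq_degree]
        have := D.deg v
        omega
      exact weights_ok K m k hKR hm hk hbig hk0 _ _ _ _ hA hB hD hC)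
  obtain ⟨ω, h1, h2, h3, h4⟩ := key
  have hnc : ∀ u v, D.Act z0 ω u → D.Act z0 ω v → u ≠ v →
      ¬ D.Conf (u, (ω u).2) (v, (ω v).2) := by
    intro u v hu hv huv hconf
    apply h1 {(u, (ω u).2), (v, (ω v).2)}
    · exact Finset.mem_image.mpr ⟨((u, (ω u).2), (v, (ω v).2)),
        Finset.mem_filter.mpr ⟨Finset.mem_univ _, hu.2, hv.2, huv, hconf⟩, rfl⟩
    · rw [mem_cyl]
      intro p hp
      rw [Finset.mem_insert, Finset.mem_singleton] at hp
      rcases hp with rfl | rfl
      · exact Prod.ext hu.1 rfl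
      · exact Prod.ext hv.1 rfl
  refine ⟨D.fin (D.Act z0 ω) (fun u => (ω u).2), fun u v huv =>
    D.fin_proper (fun u hu => hu.2) hnc huv, fun w hw => ?_⟩
  by_cases hU : (D.uniq w).card < 4 * m
  · have hwt : w ∈ Wt := Finset.mem_filter.mpr ⟨Finset.mem_univ _, hw, hU⟩
    have h5 := h4 w hwt
    set X := (N w).filter fun u => ω u ∈ D.letters z0 w u with hX
    apply D.target_ok z0 ω (m := m) (N := N w) hnc X (Finset.filter_subset _ _)
    · intro u hu
      exact (D.mem_letters z0).mp (Finset.mem_filter.mp hu).2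
    · by_contra hcon
      apply h5
      exact Finset.mem_filter.mpr ⟨Finset.mem_univ _, by push Not at hcon; exact hcon⟩
    · exact hm
    · intro P hP hPc hPd
      by_contra hcon
      push Not at hcon
      apply h2 (P.image Prod.fst ∪ P.image Prod.snd)
      · refine Finset.mem_biUnion.mpr ⟨w, hwt, Finset.mem_image.mpr ⟨P, ?_, rfl⟩⟩
        exact Finset.mem_filter.mpr ⟨Finset.mem_powersetCard.mpr ⟨hP, hPc⟩, hPd⟩
      · rw [mem_cyl]
        intro p hp
        rw [Finset.mem_union, Finset.mem_image, Finset.mem_image] at hp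
        rcases hp with ⟨q, hq, rfl⟩ | ⟨q, hq, rfl⟩
        · exact (hcon q hq).1
        · exact (hcon q hq).2
  · push Not at hU
    have hwr : w ∈ Wr := Finset.mem_filter.mpr ⟨Finset.mem_univ _, hw, hU⟩
    apply D.robust_ok z0 ω (m := m) (R w) (hR w hwr).2 (hR w hwr).1 hnc
    intro P hP hPc hPd
    by_contra hcon
    push Not at hcon
    apply h3 P
    · refine Finset.mem_biUnion.mpr ⟨w, hwr, ?_⟩
      exact Finset.mem_filter.mpr ⟨Finset.mem_powersetCard.mpr ⟨hP, hPc⟩, hPd⟩
    · rw [mem_cyl]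
      exact hcon

end Data

end Pool.Agent.Helper14.Pcf
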