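import Mathlib

/-! # Local recolouring operations on a proper colouring -/

set_option autoImplicit false
set_option linter.unusedSectionVars false

namespace Pool.Agent.Helper14.Pcf

open Finset

/-- A map that is at most two-to-one. -/
theorem exists_two_to_one {α β : Type*} [DecidableEq α] [DecidableEq β] [Nonempty β]
    (R : Finset α) (M : Finset β) (h : R.card ≤ 2 * M.card) :
    ∃ g : α → β, (∀ u ∈ R, g u ∈ M) ∧ ∀ z, (R.filter fun u => g u = z).card ≤ 2 := by
  classical
  set e := R.equivFin with he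
  set e' := M.equivFin with he'
  have hlt : ∀ u (hu : u ∈ R), (e ⟨u, hu⟩ : ℕ) / 2 < M.card := by
    intro u hu
    have := (e ⟨u, hu⟩).2
    omega
  refine ⟨fun u => if hu : u ∈ R then (e'.symm ⟨(e ⟨u, hu⟩ : ℕ) / 2, hlt u hu⟩ : M) else
    Classical.arbitrary β, ?_, ?_⟩
  · intro u hu
    simp only [hu, dite_true]
    exact (e'.symm _).2
  · intro z
    set F := R.filter fun u => (if hu : u ∈ R then
      ((e'.symm ⟨(e ⟨u, hu⟩ : ℕ) / 2, hlt u hu⟩ : M) : β) else Classical.arbitrary β) = z with hF
    by_cases hz : z ∈ M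
    · set q : ℕ := ((e' ⟨z, hz⟩ : Fin M.card) : ℕ) with hq
      have hmap : ∀ u ∈ F, ∀ hu : u ∈ R, ((e ⟨u, hu⟩ : ℕ)) / 2 = q := by
        intro u huF hu
        have h1 := (Finset.mem_filter.mp huF).2
        simp only [hu, dite_true] at h1
        have h2 : e'.symm ⟨(e ⟨u, hu⟩ : ℕ) / 2, hlt u hu⟩ = ⟨z, hz⟩ := Subtype.ext h1
        rw [Equiv.symm_apply_eq] at h2
        have h3 := congrArg (fun t : Fin M.card => (t : ℕ)) h2
        simpa using h3
      have hsub : (F.attach.image fun u => (e ⟨u.1, (Finset.mem_filter.mp u.2).1⟩ : ℕ)) ⊆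
          ({2 * q, 2 * q + 1} : Finset ℕ) := by
        intro t ht
        obtain ⟨u, _, rfl⟩ := Finset.mem_image.mp ht
        have := hmap u.1 u.2 (Finset.mem_filter.mp u.2).1
        simp only [Finset.mem_insert, Finset.mem_singleton]
        omega
      have hinj : Function.Injective
          (fun u : F => (e ⟨u.1, (Finset.mem_filter.mp u.2).1⟩ : ℕ)) := by
        intro u v huv
        have h1 : e ⟨u.1, (Finset.mem_filter.mp u.2).1⟩ = e ⟨v.1, (Finset.mem_filter.mp v.2).1⟩ :=
          Fin.ext huv
        have h2 := e.injective h1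
        have h3 := congrArg Subtype.val h2
        exact Subtype.ext h3
      calc F.card = F.attach.card := F.card_attach.symm
        _ = (F.attach.image fun u => (e ⟨u.1, (Finset.mem_filter.mp u.2).1⟩ : ℕ)).card :=
            (Finset.card_image_of_injective _ hinj).symm
        _ ≤ ({2 * q, 2 * q + 1} : Finset ℕ).card := Finset.card_le_card hsub
        _ ≤ 2 := Finset.card_le_two
    · have : F = ∅ := by
        rw [Finset.eq_empty_iff_forall_notMem]
        intro u hu
        have h1 := Finset.mem_filter.mp hu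
        have h2 := h1.2
        simp only [h1.1, dite_true] at h2
        apply hz
        rw [← h2]
        exact (e'.symm _).2
      rw [this]
      simp

section

variable {V : Type*} [Fintype V] [DecidableEq V] (G : SimpleGraph V) [DecidableRel G.Adj] {k : ℕ}

/-- The number of neighbours of `a` coloured `y`. -/
def cnt (c : V → Fin k) (a : V) (y : Fin k) : ℕ :=
  ((G.neighborFinset a).filter fun u => c u = y).card

variable {G}

theorem cnt_pos {c : V → Fin k} {a u : V} (h : G.Adj a u) : 1 ≤ cnt G c a (c u) := by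
  unfold cnt
  apply Finset.card_pos.mpr
  exact ⟨u, by simp [h]⟩

theorem eq_of_cnt_le_one {c : V → Fin k} {a u v : V} {y : Fin k} (h : cnt G c a y ≤ 1)
    (hu : G.Adj a u) (hv : G.Adj a v) (hcu : c u = y) (hcv : c v = y) : u = v := by
  unfold cnt at h
  exact Finset.card_le_one.mp h u (by simp [hu, hcu]) v (by simp [hv, hcv])

variable (G)

/-- The repeated neighbours move into the missing colours, at most two to one. -/
theorem exists_escape (c : V → Fin k) (hc : ∀ u v, G.Adj u v → c u ≠ c v)
    (hdeg : ∀ v, G.degree v + 1 ≤ k) :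
    ∃ f : V → V → Fin k,
      (∀ a u, G.Adj a u → 2 ≤ cnt G c a (c u) → (∀ v, G.Adj a v → c v ≠ f a u) ∧ f a u ≠ c a) ∧
      (∀ a z, ((G.neighborFinset a).filter
        fun u => 2 ≤ cnt G c a (c u) ∧ f a u = z).card ≤ 2) := by
  have key : ∀ a, ∃ g : V → Fin k,
      (∀ u, G.Adj a u → 2 ≤ cnt G c a (c u) → (∀ v, G.Adj a v → c v ≠ g u) ∧ g u ≠ c a) ∧
      (∀ z, ((G.neighborFinset a).filter
        fun u => 2 ≤ cnt G c a (c u) ∧ g u = z).card ≤ 2) := by
    intro a
    have : Nonempty (Fin k) := ⟨c a⟩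
    set R := (G.neighborFinset a).filter fun u => 2 ≤ cnt G c a (c u) with hR
    set Im := (G.neighborFinset a).image c with hIm
    set M : Finset (Fin k) := (insert (c a) Im)ᶜ with hM
    have hca : c a ∉ Im := by
      intro h
      obtain ⟨u, hu, hcu⟩ := Finset.mem_image.mp h
      rw [SimpleGraph.mem_neighborFinset] at hu
      exact hc a u hu hcu.symm
    have hMcard : M.card = k - (Im.card + 1) := by
      rw [hM, Finset.card_compl, Finset.card_insert_of_notMem hca, Fintype.card_fin]
    have hd : G.degree a = ∑ z ∈ Im, cnt G c a z := by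
      rw [← SimpleGraph.card_neighborFinset_eq_degree]
      rw [Finset.card_eq_sum_card_fiberwise (f := c) (t := Im)
        (fun u hu => Finset.mem_image_of_mem c hu)]
      rfl
    have hRc : R.card = ∑ z ∈ Im, (R.filter fun u => c u = z).card :=
      Finset.card_eq_sum_card_fiberwise (f := c) (t := Im)
        (fun u hu => Finset.mem_image_of_mem c (Finset.mem_filter.mp hu).1)
    have hterm : ∀ z ∈ Im, (R.filter fun u => c u = z).card + 2 ≤ 2 * cnt G c a z := by
      intro z hz
      obtain ⟨u, hu, hcu⟩ := Finset.mem_image.mp hz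
      rw [SimpleGraph.mem_neighborFinset] at hu
      have h1 : 1 ≤ cnt G c a z := hcu ▸ cnt_pos hu
      by_cases h2 : 2 ≤ cnt G c a z
      · have h3 : (R.filter fun u => c u = z).card ≤ cnt G c a z := by
          unfold cnt
          apply Finset.card_le_card
          intro v hv
          have h4 := Finset.mem_filter.mp hv
          exact Finset.mem_filter.mpr ⟨(Finset.mem_filter.mp h4.1).1, h4.2⟩
        omega
      · have h3 : (R.filter fun u => c u = z) = ∅ := by
          rw [Finset.eq_empty_iff_forall_notMem]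
          intro v hv
          have h4 := Finset.mem_filter.mp hv
          have h5 := (Finset.mem_filter.mp h4.1).2
          rw [h4.2] at h5
          exact h2 h5
        rw [h3]
        simp only [Finset.card_empty]
        omega
    have hsum : R.card + 2 * Im.card ≤ 2 * G.degree a := by
      rw [hRc, hd, Finset.mul_sum]
      have := Finset.sum_le_sum hterm
      rw [Finset.sum_add_distrib, Finset.sum_const, smul_eq_mul] at this
      linarith
    have hcard : R.card ≤ 2 * M.card := by
      rw [hMcard]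
      have := hdeg a
      omega
    obtain ⟨g, hg1, hg2⟩ := exists_two_to_one R M hcard
    refine ⟨g, ?_, ?_⟩
    · intro u hu h2
      have h3 := hg1 u (Finset.mem_filter.mpr ⟨by simpa using hu, h2⟩)
      rw [hM, Finset.mem_compl, Finset.mem_insert, not_or] at h3
      refine ⟨fun v hv hcv => h3.2 ?_, h3.1⟩
      rw [← hcv]
      exact Finset.mem_image_of_mem c (by simpa using hv)
    · intro z
      have h3 := hg2 z
      rw [hR, Finset.filter_filter] at h3
      exact h3
  choose g hg1 hg2 using key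
  exact ⟨g, hg1, hg2⟩

/-- The data of the recolouring. -/
structure Data (k : ℕ) where
  c : V → Fin k
  f : V → V → Fin k
  proper : ∀ u v, G.Adj u v → c u ≠ c v
  esc : ∀ a u, G.Adj a u → 2 ≤ cnt G c a (c u) → (∀ v, G.Adj a v → c v ≠ f a u) ∧ f a u ≠ c a
  two : ∀ a z, ((G.neighborFinset a).filter
        fun u => 2 ≤ cnt G c a (c u) ∧ f a u = z).card ≤ 2
  deg : ∀ v, G.degree v + 1 ≤ k

variable {G}

namespace Data

variable (D : Data G k)

/-- The number of neighbours of `a` coloured `y`. -/
def n (a : V) (y : Fin k) : ℕ := cnt G D.c a y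

/-- The touched vertices of the operation `(u,y)`. -/
def T (p : V × Fin k) : Finset V := insert p.1 ((G.neighborFinset p.1).filter fun s => D.c s = p.2)

/-- The new colour. -/
def nv (p : V × Fin k) (s : V) : Fin k :=
  if s = p.1 then p.2 else if D.n s (D.c p.1) = 1 then D.c p.1 else D.f s p.1

/-- The operation `(u,y)` is allowed. -/
def Valid (p : V × Fin k) : Prop := p.2 ≠ D.c p.1 ∧ D.n p.1 p.2 ≤ 1

instance : DecidablePred D.Valid := fun p => by unfold Valid; infer_instance

theorem mem_T {p : V × Fin k} {s : V} :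
    s ∈ D.T p ↔ s = p.1 ∨ (G.Adj p.1 s ∧ D.c s = p.2) := by
  simp [T]

theorem card_T {p : V × Fin k} (hp : D.Valid p) : (D.T p).card ≤ 2 := by
  unfold T
  refine (Finset.card_insert_le _ _).trans ?_
  have := hp.2
  unfold n cnt at this
  omega

theorem nv_self (p : V × Fin k) : D.nv p p.1 = p.2 := by simp [nv]

theorem nv_blocker {p : V × Fin k} {s : V} (hs : G.Adj p.1 s) :
    (D.nv p s = D.c p.1 ∧ D.n s (D.c p.1) = 1) ∨
    (D.nv p s = D.f s p.1 ∧ 2 ≤ D.n s (D.c p.1)) := by
  have hne : s ≠ p.1 := hs.ne'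
  have h1 : 1 ≤ D.n s (D.c p.1) := cnt_pos hs.symm
  unfold nv
  rw [if_neg hne]
  by_cases h : D.n s (D.c p.1) = 1
  · left
    exact ⟨by rw [if_pos h], h⟩
  · right
    exact ⟨by rw [if_neg h], by omega⟩

/-- A single operation keeps the colouring proper, towards an untouched neighbour. -/
theorem single_out {p : V × Fin k} (_hp : D.Valid p) {s t : V} (hst : G.Adj s t)
    (hs : s ∈ D.T p) (ht : t ∉ D.T p) : D.nv p s ≠ D.c t := by
  rw [mem_T] at hs ht
  push Not at ht
  rcases hs with rfl | ⟨hs1, hs2⟩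
  · rw [nv_self]
    exact fun h => ht.2 hst h.symm
  · rcases D.nv_blocker hs1 with ⟨h1, h2⟩ | ⟨h1, h2⟩
    · rw [h1]
      intro h
      exact ht.1 (eq_of_cnt_le_one h2.le hst hs1.symm h.symm rfl)
    · rw [h1]
      exact fun h => (D.esc s p.1 hs1.symm h2).1 t hst h.symm

/-- A single operation keeps the colouring proper, between touched vertices. -/
theorem single_in {p : V × Fin k} (hp : D.Valid p) {s t : V} (hst : G.Adj s t)
    (hs : s ∈ D.T p) (ht : t ∈ D.T p) : D.nv p s ≠ D.nv p t := by
  have main : ∀ t : V, G.Adj p.1 t → D.c t = p.2 → D.nv p t ≠ p.2 := by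
    intro t h1 h2
    rcases D.nv_blocker h1 with ⟨h3, _⟩ | ⟨h3, h4⟩
    · rw [h3]
      exact hp.1.symm
    · rw [h3, ← h2]
      exact (D.esc t p.1 h1.symm h4).2
  rw [mem_T] at hs ht
  rcases hs with rfl | ⟨hs1, hs2⟩
  · rcases ht with rfl | ⟨ht1, ht2⟩
    · exact absurd hst (G.irrefl)
    · rw [nv_self]
      exact (main t ht1 ht2).symm
  · rcases ht with rfl | ⟨ht1, ht2⟩
    · rw [nv_self]
      exact main s hs1 hs2
    · exact absurd (hs2.trans ht2.symm) (D.proper s t hst)

/-- Two operations are in conflict. -/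
def Conf (p q : V × Fin k) : Prop :=
  ∃ s ∈ D.T p, ∃ t ∈ D.T q, s = t ∨ (G.Adj s t ∧ D.nv p s = D.nv q t)

theorem Conf.symm {p q : V × Fin k} (h : D.Conf p q) : D.Conf q p := by
  obtain ⟨s, hs, t, ht, h⟩ := h
  refine ⟨t, ht, s, hs, ?_⟩
  rcases h with h | ⟨h1, h2⟩
  · exact Or.inl h.symm
  · exact Or.inr ⟨h1.symm, h2.symm⟩

section exec

variable (Act : V → Prop) (yy : V → Fin k)

open Classical in
/-- The colouring after executing all active operations. -/
noncomputable def fin (s : V) : Fin k :=
  if h : ∃ u, Act u ∧ s ∈ D.T (u, yy u) then D.nv (h.choose, yy h.choose) s else D.c s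

variable {Act yy}

theorem fin_touched (hnc : ∀ u v, Act u → Act v → u ≠ v → ¬ D.Conf (u, yy u) (v, yy v))
    {u s : V} (hu : Act u) (hs : s ∈ D.T (u, yy u)) :
    D.fin Act yy s = D.nv (u, yy u) s := by
  have h : ∃ u, Act u ∧ s ∈ D.T (u, yy u) := ⟨u, hu, hs⟩
  unfold fin
  rw [dif_pos h]
  have h1 := h.choose_spec
  by_cases h2 : h.choose = u
  · rw [h2]
  · exfalso
    exact hnc _ _ h1.1 hu h2 ⟨s, h1.2, s, hs, Or.inl rfl⟩

theorem fin_untouched {s : V} (hs : ∀ u, Act u → s ∉ D.T (u, yy u)) :
    D.fin Act yy s = D.c s := by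
  unfold fin
  rw [dif_neg]
  push Not
  exact hs

theorem fin_proper (hv : ∀ u, Act u → D.Valid (u, yy u))
    (hnc : ∀ u v, Act u → Act v → u ≠ v → ¬ D.Conf (u, yy u) (v, yy v))
    {s t : V} (hst : G.Adj s t) : D.fin Act yy s ≠ D.fin Act yy t := by
  classical
  by_cases hs : ∃ u, Act u ∧ s ∈ D.T (u, yy u)
  · obtain ⟨u, hu, hsu⟩ := hs
    rw [D.fin_touched hnc hu hsu]
    by_cases ht : ∃ v, Act v ∧ t ∈ D.T (v, yy v)
    · obtain ⟨v, hv', htv⟩ := ht
      rw [D.fin_touched hnc hv' htv]
      by_cases huv : u = v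
      · subst huv
        exact D.single_in (hv u hu) hst hsu htv
      · intro h
        exact hnc u v hu hv' huv ⟨s, hsu, t, htv, Or.inr ⟨hst, h⟩⟩
    · push Not at ht
      rw [D.fin_untouched ht]
      exact D.single_out (hv u hu) hst hsu (ht u hu)
  · push Not at hs
    rw [D.fin_untouched hs]
    by_cases ht : ∃ v, Act v ∧ t ∈ D.T (v, yy v)
    · obtain ⟨v, hv', htv⟩ := ht
      rw [D.fin_touched hnc hv' htv]
      exact (D.single_out (hv v hv') hst.symm htv (hs v hv')).symm
    · push Not at ht
      rw [D.fin_untouched ht]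
      exact D.proper s t hst

end exec

end Data

end

end Pool.Agent.Helper14.Pcf
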