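import Pool.Agent.Helper14.Pcf.Counts

/-! # Many good operations at a vertex with few unique colours -/

set_option autoImplicit false
set_option linter.unusedSectionVars false

namespace Pool.Agent.Helper14.Pcf

open Finset

variable {V : Type*} [Fintype V] [DecidableEq V] {G : SimpleGraph V} [DecidableRel G.Adj] {k : ℕ}

namespace Data

variable (D : Data G k)

/-- The colours seen by `w`. -/
def im (w : V) : Finset (Fin k) := (G.neighborFinset w).image D.c

theorem mem_im {w : V} {z : Fin k} : z ∈ D.im w ↔ ∃ v, G.Adj w v ∧ D.c v = z := by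
  simp [im]

theorem n_eq_zero {w : V} {z : Fin k} (h : z ∉ D.im w) : D.n w z = 0 := by
  unfold n cnt
  rw [Finset.card_eq_zero, Finset.filter_eq_empty_iff]
  intro v hv hcv
  exact h (D.mem_im.mpr ⟨v, by simpa using hv, hcv⟩)

theorem n_pos {w : V} {z : Fin k} (h : z ∈ D.im w) : 1 ≤ D.n w z := by
  obtain ⟨v, hv, hcv⟩ := D.mem_im.mp h
  rw [← hcv]
  exact cnt_pos hv

theorem degree_eq_sum (w : V) : G.degree w = ∑ z ∈ D.im w, D.n w z := by
  rw [← SimpleGraph.card_neighborFinset_eq_degree]
  rw [Finset.card_eq_sum_card_fiberwise (f := D.c) (t := D.im w)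
    (fun u hu => Finset.mem_image_of_mem D.c hu)]
  rfl

theorem degree_eq_sum_univ (w : V) : G.degree w = ∑ z, D.n w z := by
  rw [D.degree_eq_sum w]
  apply Finset.sum_subset (Finset.subset_univ _)
  intro z _ hz
  exact D.n_eq_zero hz

/-- The unique colours at `w`. -/
def uniq (w : V) : Finset (Fin k) := Finset.univ.filter fun z => D.n w z = 1

/-- The colours of multiplicity two at `w`. -/
def dbl (w : V) : Finset (Fin k) := Finset.univ.filter fun z => D.n w z = 2

theorem uniq_eq (w : V) : (D.uniq w).card = ∑ z ∈ D.im w, (if D.n w z = 1 then 1 else 0) := by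
  rw [← Finset.card_filter]
  congr 1
  ext z
  simp only [uniq, Finset.mem_filter, Finset.mem_univ, true_and]
  constructor
  · intro h
    refine ⟨?_, h⟩
    by_contra hcon
    rw [D.n_eq_zero hcon] at h
    omega
  · exact fun h => h.2

theorem dbl_eq (w : V) : (D.dbl w).card = ∑ z ∈ D.im w, (if D.n w z = 2 then 1 else 0) := by
  rw [← Finset.card_filter]
  congr 1
  ext z
  simp only [dbl, Finset.mem_filter, Finset.mem_univ, true_and]
  constructor
  · intro h
    refine ⟨?_, h⟩
    by_contra hcon
    rw [D.n_eq_zero hcon] at h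
    omega
  · exact fun h => h.2

theorem two_im_le (w : V) : 2 * (D.im w).card ≤ G.degree w + (D.uniq w).card := by
  rw [D.degree_eq_sum w, D.uniq_eq w, ← Finset.sum_add_distrib, mul_comm, ← smul_eq_mul,
    ← Finset.sum_const]
  apply Finset.sum_le_sum
  intro z hz
  have := D.n_pos hz
  split_ifs <;> omega

theorem six_im_le (w : V) :
    6 * (D.im w).card ≤ 2 * G.degree w + 4 * (D.uniq w).card + 2 * (D.dbl w).card := by
  rw [D.degree_eq_sum w, D.uniq_eq w, D.dbl_eq w, Finset.mul_sum, Finset.mul_sum, Finset.mul_sum,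
    ← Finset.sum_add_distrib, ← Finset.sum_add_distrib, mul_comm, ← smul_eq_mul,
    ← Finset.sum_const]
  apply Finset.sum_le_sum
  intro z hz
  have := D.n_pos hz
  split_ifs <;> omega

open Classical in
/-- The good values at `u` for `w`. -/
noncomputable def goodVals (w u : V) : Finset (Fin k) :=
  Finset.univ.filter fun y => D.Good w (u, y)

open Classical in
/-- The good values of the first kind. -/
noncomputable def goodI (w u : V) : Finset (Fin k) :=
  (D.im w)ᶜ.filter fun y => D.n u y ≤ 1

open Classical in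
/-- The good values of the second kind. -/
noncomputable def goodII (w u : V) : Finset (Fin k) :=
  (D.im w).filter fun y => y ≠ D.c u ∧ D.n u y = 0

theorem goodI_sub {w u : V} (hwu : G.Adj w u) : D.goodI w u ⊆ D.goodVals w u := by
  classical
  intro y hy
  have h1 := Finset.mem_filter.mp hy
  have h2 := Finset.mem_compl.mp h1.1
  refine Finset.mem_filter.mpr ⟨Finset.mem_univ _, hwu, ⟨?_, h1.2⟩, Or.inl ?_⟩
  · intro h
    apply h2
    exact D.mem_im.mpr ⟨u, hwu, h.symm⟩
  · intro v hv hcv
    exact h2 (D.mem_im.mpr ⟨v, hv, hcv⟩)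

theorem goodII_sub {w u : V} (hwu : G.Adj w u) (h2 : D.n w (D.c u) = 2) :
    D.goodII w u ⊆ D.goodVals w u := by
  classical
  intro y hy
  have h1 := Finset.mem_filter.mp hy
  refine Finset.mem_filter.mpr ⟨Finset.mem_univ _, hwu, ⟨h1.2.1, ?_⟩, Or.inr ⟨h2, h1.2.2⟩⟩
  have := h1.2.2
  simp only
  omega

theorem goodI_count (w u : V) :
    2 * ((D.im w)ᶜ).card ≤ 2 * (D.goodI w u).card + ∑ y ∈ (D.im w)ᶜ, D.n u y := by
  classical
  have h1 : ((D.im w)ᶜ).card = (D.goodI w u).card +
      ((D.im w)ᶜ.filter fun y => ¬ D.n u y ≤ 1).card := by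
    have := Finset.card_filter_add_card_filter_not (s := (D.im w)ᶜ) (fun y => D.n u y ≤ 1)
    rw [← this]
    congr 1
  have h2 : 2 * ((D.im w)ᶜ.filter fun y => ¬ D.n u y ≤ 1).card ≤ ∑ y ∈ (D.im w)ᶜ, D.n u y := by
    calc 2 * ((D.im w)ᶜ.filter fun y => ¬ D.n u y ≤ 1).card
        = ∑ _y ∈ (D.im w)ᶜ.filter fun y => ¬ D.n u y ≤ 1, 2 := by
          rw [Finset.sum_const, smul_eq_mul, mul_comm]
      _ ≤ ∑ y ∈ (D.im w)ᶜ.filter fun y => ¬ D.n u y ≤ 1, D.n u y := by
          apply Finset.sum_le_sum
          intro y hy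
          have := (Finset.mem_filter.mp hy).2
          omega
      _ ≤ _ := Finset.sum_le_sum_of_subset (Finset.filter_subset _ _)
  omega

theorem goodII_count (w u : V) :
    (D.im w).card ≤ (D.goodII w u).card + 1 + ∑ y ∈ D.im w, D.n u y := by
  classical
  have hsub : D.im w ⊆ (D.goodII w u ∪ {D.c u}) ∪ (D.im w).filter fun y => 1 ≤ D.n u y := by
    intro y hy
    by_cases h1 : 1 ≤ D.n u y
    · exact Finset.mem_union_right _ (Finset.mem_filter.mpr ⟨hy, h1⟩)
    · apply Finset.mem_union_left
      by_cases h2 : y = D.c u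
      · exact Finset.mem_union_right _ (Finset.mem_singleton.mpr h2)
      · exact Finset.mem_union_left _ (Finset.mem_filter.mpr ⟨hy, h2, by omega⟩)
  have h1 := Finset.card_le_card hsub
  have h2 := Finset.card_union_le (D.goodII w u ∪ {D.c u})
    ((D.im w).filter fun y => 1 ≤ D.n u y)
  have h3 := Finset.card_union_le (D.goodII w u) {D.c u}
  have h4 : ((D.im w).filter fun y => 1 ≤ D.n u y).card ≤ ∑ y ∈ D.im w, D.n u y := by
    calc ((D.im w).filter fun y => 1 ≤ D.n u y).card
        = ∑ _y ∈ (D.im w).filter fun y => 1 ≤ D.n u y, 1 := by simp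
      _ ≤ ∑ y ∈ (D.im w).filter fun y => 1 ≤ D.n u y, D.n u y := by
          apply Finset.sum_le_sum
          intro y hy
          exact (Finset.mem_filter.mp hy).2
      _ ≤ _ := Finset.sum_le_sum_of_subset (Finset.filter_subset _ _)
  rw [Finset.card_singleton] at h3
  omega

theorem sum_split (w u : V) :
    ∑ y ∈ D.im w, D.n u y + ∑ y ∈ (D.im w)ᶜ, D.n u y + 1 ≤ k := by
  classical
  rw [Finset.sum_add_sum_compl, ← D.degree_eq_sum_univ u]
  exact D.deg u

theorem card_compl_im (w : V) : ((D.im w)ᶜ).card + (D.im w).card = k := by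
  classical
  have := Finset.card_compl_add_card (D.im w)
  rwa [Fintype.card_fin] at this

theorem exists_target (w : V) (hU : 16 * (D.uniq w).card ≤ k) :
    ∃ N : Finset V, G.degree w ≤ 4 * N.card ∧
      ∀ u ∈ N, G.Adj w u ∧ k ≤ 12 * (D.goodVals w u).card := by
  classical
  set q := ((G.neighborFinset w).filter fun u => D.n w (D.c u) = 2) with hq
  have hqc : q.card = 2 * (D.dbl w).card := by
    rw [Finset.card_eq_sum_card_fiberwise (f := D.c) (t := D.dbl w)]
    · rw [mul_comm, ← smul_eq_mul, ← Finset.sum_const]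
      apply Finset.sum_congr rfl
      intro z hz
      have h1 := (Finset.mem_filter.mp hz).2
      rw [← h1]
      unfold n cnt
      congr 1
      ext u
      simp only [hq, Finset.mem_filter]
      constructor
      · rintro ⟨⟨h2, _⟩, h3⟩
        exact ⟨h2, h3⟩
      · rintro ⟨h2, h3⟩
        exact ⟨⟨h2, by rw [h3]; exact h1⟩, h3⟩
    · intro u hu
      have h1 := (Finset.mem_filter.mp hu).2
      exact Finset.mem_filter.mpr ⟨Finset.mem_univ _, h1⟩
  have hdeg := D.deg w
  have h2 := D.two_im_le w
  have h6 := D.six_im_le w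
  have hA := D.card_compl_im w
  by_cases hcase : G.degree w ≤ 4 * q.card
  · refine ⟨q, hcase, fun u hu => ?_⟩
    have h3 := Finset.mem_filter.mp hu
    have hwu : G.Adj w u := by simpa using h3.1
    refine ⟨hwu, ?_⟩
    have hI := D.goodI_count w u
    have hII := D.goodII_count w u
    have hs := D.sum_split w u
    have hdis : Disjoint (D.goodI w u) (D.goodII w u) := by
      rw [Finset.disjoint_left]
      intro y hy1 hy2
      exact (Finset.mem_compl.mp (Finset.mem_filter.mp hy1).1) (Finset.mem_filter.mp hy2).1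
    have hg : (D.goodI w u).card + (D.goodII w u).card ≤ (D.goodVals w u).card := by
      rw [← Finset.card_union_of_disjoint hdis]
      exact Finset.card_le_card
        (Finset.union_subset (D.goodI_sub hwu) (D.goodII_sub hwu h3.2))
    omega
  · refine ⟨G.neighborFinset w, ?_, fun u hu => ?_⟩
    · rw [SimpleGraph.card_neighborFinset_eq_degree]
      omega
    · have hwu : G.Adj w u := by simpa using hu
      refine ⟨hwu, ?_⟩
      have hI := D.goodI_count w u
      have hs := D.sum_split w u
      have hg : (D.goodI w u).card ≤ (D.goodVals w u).card :=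
        Finset.card_le_card (D.goodI_sub hwu)
      omega

end Data

end Pool.Agent.Helper14.Pcf
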